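import Pool.Agent.Lib.MP_c377d9_an.Cover

set_option linter.unusedSectionVars false

noncomputable section

namespace Pool.Agent.Lib.MP_c377d9_an

open MeasureTheory Filter Topology Set Metric Module
open scoped ENNReal NNReal Pointwise

variable {V F : Type*} [NormedAddCommGroup V] [InnerProductSpace ℝ V] [FiniteDimensional ℝ V]
  [MeasurableSpace V] [BorelSpace V] [NormedAddCommGroup F] [NormedSpace ℝ F]
  [MeasurableSpace F] [BorelSpace F] [SecondCountableTopology F]

lemma bernoulli_real {q : ℝ} (hq : 1 ≤ q) {t s δ : ℝ} (ht : 0 ≤ t) (hs : 0 ≤ s) (hδ : 0 ≤ δ)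
    (h : t ≤ s + δ) : t ^ q ≤ s ^ q + q * t ^ (q - 1) * δ := by
  rcases ht.eq_or_lt with rfl | ht'
  · rw [Real.zero_rpow (by linarith)]; positivity
  have h1 := one_add_mul_self_le_rpow_one_add (s := s / t - 1)
    (by have : 0 ≤ s / t := by positivity
        linarith) hq
  rw [add_sub_cancel, Real.div_rpow hs ht, le_div_iff₀ (by positivity)] at h1
  have h2 : t ^ q = t ^ (q - 1) * t := by
    rw [Real.rpow_sub_one ht'.ne']; field_simp
  have h3 : (1 + q * (s / t - 1)) * t ^ q = t ^ q + q * t ^ (q - 1) * (s - t) := by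
    rw [h2]; field_simp
  have h4 : 0 ≤ q * t ^ (q - 1) := by positivity
  rw [h3] at h1
  nlinarith [mul_le_mul_of_nonneg_left (show -δ ≤ s - t by linarith) h4]

lemma bernoulli_ennreal {q : ℝ} (hq : 1 ≤ q) {t : ℝ≥0∞} (ht : t ≠ ∞) :
    ∃ C : ℝ≥0∞, C ≠ ∞ ∧ ∀ s δ : ℝ≥0∞, t ≤ s + δ → t ^ q ≤ s ^ q + C * δ := by
  lift t to ℝ≥0 using ht
  refine ⟨((Real.toNNReal (q * (t : ℝ) ^ (q - 1)) + 1 : ℝ≥0) : ℝ≥0∞), ENNReal.coe_ne_top, ?_⟩
  intro s δ h
  rcases eq_or_ne s ∞ with rfl | hs
  · rw [ENNReal.top_rpow_of_pos (by linarith)]; simp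
  rcases eq_or_ne δ ∞ with rfl | hδ
  · rw [ENNReal.mul_top (by simp)]; simp
  lift s to ℝ≥0 using hs
  lift δ to ℝ≥0 using hδ
  rw [← ENNReal.coe_rpow_of_nonneg _ (by linarith), ← ENNReal.coe_rpow_of_nonneg _ (by linarith)]
  norm_cast at h ⊢
  have h1 := bernoulli_real hq t.2 s.2 δ.2 (by exact_mod_cast h)
  rw [← NNReal.coe_le_coe]
  push_cast
  rw [Real.coe_toNNReal _ (by have := t.2; positivity)]
  have := δ.2
  simp only [NNReal.val_eq_coe] at *
  nlinarith

lemma le_liminf_of_le_add {ι : Type*} {l : Filter ι} {X : ℝ≥0∞} {E d : ι → ℝ≥0∞}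
    (h : ∀ᶠ i in l, X ≤ E i + d i) (hd : Tendsto d l (𝓝 0)) : X ≤ liminf E l := by
  refine ENNReal.le_of_forall_pos_le_add fun ε hε _ => ?_
  rw [← tsub_le_iff_right]
  refine le_liminf_of_le (by isBoundedDefault) ?_
  filter_upwards [h, hd.eventually (gt_mem_nhds (show (0 : ℝ≥0∞) < ε by exact_mod_cast hε))]
    with i h1 h2
  rw [tsub_le_iff_right]
  exact h1.trans (by gcongr)

lemma lint_scale {g : V → ℝ≥0∞} (hg : Measurable g) (x : V) {r : ℝ} (hr : 0 < r) :
    ∫⁻ z, g (x + r • z) = (ENNReal.ofReal r ^ finrank ℝ V)⁻¹ * ∫⁻ y, g y := by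
  have h1 : ∫⁻ z, g (x + r • z) = ∫⁻ y, g (x + y) ∂(Measure.map (r • ·) (volume : Measure V)) := by
    rw [lintegral_map (by fun_prop) (by fun_prop)]
  rw [h1, Measure.map_addHaar_smul _ hr.ne', lintegral_smul_measure,
    lintegral_add_left_eq_self g x, smul_eq_mul, abs_of_pos (by positivity),
    ENNReal.ofReal_inv_of_pos (by positivity), ENNReal.ofReal_pow hr.le]

lemma HalfLimit.scaled {u : V → F} (hu : Measurable u) {x ν : V} {a : F} (h : HalfLimit u x ν a)
    {R : ℝ} (hR : 0 < R) :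
    Tendsto (fun r : ℝ => ∫⁻ z in hball 0 ν R, ‖u (x + r • z) - a‖ₑ) (𝓝[>] 0) (𝓝 0) := by
  have h1 : Tendsto (fun r : ℝ => r * R) (𝓝[>] 0) (𝓝[>] 0) := by
    refine tendsto_nhdsWithin_iff.2 ⟨?_, ?_⟩
    · have : Continuous fun r : ℝ => r * R := by fun_prop
      simpa using (this.tendsto 0).mono_left nhdsWithin_le_nhds
    · filter_upwards [self_mem_nhdsWithin] with r hr
      exact mul_pos hr hR
  have h2 := ENNReal.Tendsto.const_mul (a := ENNReal.ofReal R ^ finrank ℝ V) (h.comp h1)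
    (Or.inr (ENNReal.pow_ne_top ENNReal.ofReal_ne_top))
  rw [mul_zero] at h2
  refine h2.congr' ?_
  filter_upwards [self_mem_nhdsWithin] with r hr
  have hr' : (0 : ℝ) < r := hr
  have h3 := lint_scale (g := (hball x ν (r * R)).indicator fun y => ‖u y - a‖ₑ)
    (Measurable.indicator (by fun_prop) (isOpen_hball _ _ _).measurableSet) x hr'
  rw [lintegral_indicator (isOpen_hball _ _ _).measurableSet] at h3
  rw [← lintegral_indicator (isOpen_hball _ _ _).measurableSet]
  have h4 : ∀ z, (hball 0 ν R).indicator (fun z => ‖u (x + r • z) - a‖ₑ) z =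
      (hball x ν (r * R)).indicator (fun y => ‖u y - a‖ₑ) (x + r • z) := by
    intro z
    have : z ∈ hball 0 ν R ↔ x + r • z ∈ hball x ν (r * R) := by
      simp only [hball, mem_ofPred_eq, sub_zero, add_sub_cancel_left, norm_smul,
        Real.norm_eq_abs, abs_of_pos hr', inner_smul_left, conj_trivial,
        mul_lt_mul_iff_right₀ hr', mul_pos_iff_of_pos_left hr']
    by_cases hz : z ∈ hball 0 ν R
    · rw [indicator_of_mem hz, indicator_of_mem (this.1 hz)]
    · rw [indicator_of_notMem hz, indicator_of_notMem (mt this.2 hz)]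
  simp_rw [h4]
  rw [h3]
  simp only [Function.comp, hball]
  rw [ENNReal.ofReal_mul hr'.le, mul_pow, div_eq_mul_inv,
    ENNReal.mul_inv (Or.inl (pow_ne_zero _ (by simpa using hr')))
      (Or.inl (ENNReal.pow_ne_top ENNReal.ofReal_ne_top))]
  have h5 : ENNReal.ofReal R ^ finrank ℝ V * (ENNReal.ofReal R ^ finrank ℝ V)⁻¹ = 1 :=
    ENNReal.mul_inv_cancel (pow_ne_zero _ (by simpa using hR))
      (ENNReal.pow_ne_top ENNReal.ofReal_ne_top)
  calc _ = (ENNReal.ofReal R ^ finrank ℝ V * (ENNReal.ofReal R ^ finrank ℝ V)⁻¹) *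
        ((ENNReal.ofReal r ^ finrank ℝ V)⁻¹ *
        ∫⁻ y in {y | ‖y - x‖ < r * R ∧ 0 < inner ℝ (y - x) ν}, ‖u y - a‖ₑ) := by ring
    _ = _ := by rw [h5, one_mul]

/-- local energy at scale `r` -/
def locE (Φ : Measure V) (q R : ℝ) (u : V → F) (r : ℝ) (x : V) : ℝ≥0∞ :=
  ∫⁻ w, (∫⁻ z in ball (0 : V) R, ‖u (x + r • z + r • w) - u (x + r • z)‖ₑ ^ q) ∂Φ

lemma blowup {n : ℕ} (hn : finrank ℝ V = n + 1) {u : V → F} (hu : Measurable u)
    (Φ : Measure V) [IsFiniteMeasure Φ] (hΦ : ∀ᵐ w ∂Φ, ‖w‖ ≤ 1) {q : ℝ} (hq : 1 ≤ q)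
    {x ν : V} {a b : F} (hν : ‖ν‖ = 1) (h1 : HalfLimit u x ν a) (h2 : HalfLimit u x (-ν) b)
    {R : ℝ} (hR : 1 < R) :
    ‖a - b‖ₑ ^ q * (ENNReal.ofReal (R - 1) ^ n * (μHE[n] : Measure V) (disc ν 1) *
      ∫⁻ w, ‖inner ℝ w ν‖ₑ ∂Φ) ≤ liminf (fun r => locE Φ q R u r x) (𝓝[>] 0) := by
  obtain ⟨C, hC, hC'⟩ := bernoulli_ennreal hq (t := ‖a - b‖ₑ) enorm_ne_top
  set g : ℝ → V → ℝ≥0∞ := fun r z =>
    (hball 0 ν (R + 1)).indicator (fun z => ‖u (x + r • z) - a‖ₑ) z +
      (hball 0 (-ν) (R + 1)).indicator (fun z => ‖u (x + r • z) - b‖ₑ) z with hg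
  have hgm : ∀ r, Measurable (g r) := fun r =>
    (Measurable.indicator (by fun_prop) (isOpen_hball _ _ _).measurableSet).add
      (Measurable.indicator (by fun_prop) (isOpen_hball _ _ _).measurableSet)
  have hg0 : Tendsto (fun r => ∫⁻ z, g r z) (𝓝[>] 0) (𝓝 0) := by
    have := (h1.scaled hu (R := R + 1) (by linarith)).add (h2.scaled hu (R := R + 1) (by linarith))
    rw [add_zero] at this
    refine this.congr fun r => ?_
    rw [hg, lintegral_add_left
      (Measurable.indicator (by fun_prop) (isOpen_hball _ _ _).measurableSet),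
      lintegral_indicator (isOpen_hball _ _ _).measurableSet,
      lintegral_indicator (isOpen_hball _ _ _).measurableSet]
  have hga : ∀ r z, ‖z‖ < R + 1 → 0 < inner ℝ z ν → ‖u (x + r • z) - a‖ₑ ≤ g r z := by
    intro r z k1 k2
    have : z ∈ hball 0 ν (R + 1) := ⟨by simpa using k1, by simpa using k2⟩
    simp only [hg, indicator_of_mem this]
    exact le_self_add
  have hgb : ∀ r z, ‖z‖ < R + 1 → inner ℝ z ν < 0 → ‖u (x + r • z) - b‖ₑ ≤ g r z := by
    intro r z k1 k2
    have : z ∈ hball 0 (-ν) (R + 1) := ⟨by simpa using k1, by simpa using k2⟩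
    simp only [hg, indicator_of_mem this]
    exact le_add_self
  refine le_liminf_of_le_add (d := fun r => (C * (2 * ∫⁻ z, g r z)) * Φ univ)
    (Eventually.of_forall fun r => ?_) ?_
  · rw [← mul_assoc, ← mul_assoc, ← lintegral_const_mul _ (by fun_prop), locE, ← lintegral_const,
      ← lintegral_add_right _ measurable_const]
    refine lintegral_mono_ae ?_
    filter_upwards [hΦ] with w hw
    have hS : MeasurableSet {z : V | ‖z‖ < R ∧ inner ℝ z ν * inner ℝ (z + w) ν < 0} := by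
      have h1 : IsOpen {z : V | ‖z‖ < R} := isOpen_lt (by fun_prop) (by fun_prop)
      have h2 : IsOpen {z : V | inner ℝ z ν * inner ℝ (z + w) ν < 0} :=
        isOpen_lt (by fun_prop) (by fun_prop)
      exact (h1.inter h2).measurableSet
    calc _ = ‖a - b‖ₑ ^ q * (ENNReal.ofReal (R - 1) ^ n * (μHE[n] : Measure V) (disc ν 1) *
          ‖inner ℝ w ν‖ₑ) := by ring
      _ ≤ ‖a - b‖ₑ ^ q * volume {z : V | ‖z‖ < R ∧ inner ℝ z ν * inner ℝ (z + w) ν < 0} := by
          gcongr
          exact slab_lower hn hν hw hR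
      _ = ∫⁻ z, {z : V | ‖z‖ < R ∧ inner ℝ z ν * inner ℝ (z + w) ν < 0}.indicator
            (fun _ => ‖a - b‖ₑ ^ q) z := by
          rw [lintegral_indicator hS, setLIntegral_const]
      _ ≤ ∫⁻ z, ((ball (0 : V) R).indicator
            (fun z => ‖u (x + r • z + r • w) - u (x + r • z)‖ₑ ^ q) z +
            C * (g r z + g r (z + w))) := by
          refine lintegral_mono fun z => ?_
          by_cases hz : z ∈ {z : V | ‖z‖ < R ∧ inner ℝ z ν * inner ℝ (z + w) ν < 0}
          swap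
          · rw [indicator_of_notMem hz]; exact zero_le
          have hzw : ‖z + w‖ < R + 1 := (norm_add_le _ _).trans_lt (by linarith [hz.1])
          have hz' : ‖z‖ < R + 1 := by linarith [hz.1]
          rw [indicator_of_mem hz, indicator_of_mem (by simpa using hz.1)]
          refine hC' _ _ ?_
          have e1 : x + r • z + r • w = x + r • (z + w) := by rw [smul_add, add_assoc]
          rw [e1]
          rcases mul_neg_iff.1 hz.2 with ⟨k1, k2⟩ | ⟨k1, k2⟩
          · calc ‖a - b‖ₑ = ‖-(u (x + r • (z + w)) - u (x + r • z)) +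
                  (-(u (x + r • z) - a) + (u (x + r • (z + w)) - b))‖ₑ := by congr 1; abel
              _ ≤ ‖-(u (x + r • (z + w)) - u (x + r • z))‖ₑ +
                  (‖-(u (x + r • z) - a)‖ₑ + ‖u (x + r • (z + w)) - b‖ₑ) :=
                (enorm_add_le _ _).trans (by gcongr; exact enorm_add_le _ _)
              _ ≤ _ := by
                rw [enorm_neg, enorm_neg]
                gcongr
                · exact hga r z hz' k1
                · exact hgb r _ hzw k2
          · calc ‖a - b‖ₑ = ‖(u (x + r • (z + w)) - u (x + r • z)) +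
                  ((u (x + r • z) - b) + -(u (x + r • (z + w)) - a))‖ₑ := by congr 1; abel
              _ ≤ ‖(u (x + r • (z + w)) - u (x + r • z))‖ₑ +
                  (‖(u (x + r • z) - b)‖ₑ + ‖-(u (x + r • (z + w)) - a)‖ₑ) :=
                (enorm_add_le _ _).trans (by gcongr; exact enorm_add_le _ _)
              _ ≤ _ := by
                rw [enorm_neg]
                gcongr
                · exact hgb r z hz' k1
                · exact hga r _ hzw k2
      _ = _ := by
          rw [lintegral_add_left (Measurable.indicator (by fun_prop) measurableSet_ball),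
            lintegral_indicator measurableSet_ball,
            lintegral_const_mul' _ _ hC,
            lintegral_add_left (hgm r), lintegral_add_right_eq_self (g r) w, two_mul]
  · have k1 := ENNReal.Tendsto.const_mul (a := 2) hg0 (Or.inr (by simp))
    have k2 := ENNReal.Tendsto.const_mul (a := C) k1 (Or.inr hC)
    have k3 := ENNReal.Tendsto.mul_const (b := Φ univ) k2 (Or.inr (measure_ne_top _ _))
    simpa using k3

lemma averaging (m : Measure V) [SFinite m] {f : V → ℝ≥0∞} (hf : Measurable f) {r R : ℝ}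
    (hr : 0 < r) {B : ℝ≥0∞} (hB : ∀ x, m (ball x (r * R)) ≤ B) :
    ∫⁻ x, (∫⁻ z in ball (0 : V) R, f (x + r • z)) ∂m ≤
      B * ((ENNReal.ofReal r ^ finrank ℝ V)⁻¹ * ∫⁻ y, f y) := by
  have hS : MeasurableSet {p : V × V | ‖p.2 - p.1‖ < r * R} :=
    (isOpen_lt (by fun_prop) (by fun_prop)).measurableSet
  have h1 : ∀ x, ∫⁻ z in ball (0 : V) R, f (x + r • z) =
      (ENNReal.ofReal r ^ finrank ℝ V)⁻¹ *
        ∫⁻ y, {p : V × V | ‖p.2 - p.1‖ < r * R}.indicator (fun p => f p.2) (x, y) := by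
    intro x
    rw [← lint_scale (g := fun y => {p : V × V | ‖p.2 - p.1‖ < r * R}.indicator
      (fun p => f p.2) (x, y)) ((Measurable.indicator (by fun_prop) hS).comp (by fun_prop)) x hr,
      ← lintegral_indicator measurableSet_ball]
    refine lintegral_congr fun z => ?_
    have : z ∈ ball (0 : V) R ↔ (x, x + r • z) ∈ {p : V × V | ‖p.2 - p.1‖ < r * R} := by
      simp only [mem_ball_zero_iff, mem_ofPred_eq, add_sub_cancel_left, norm_smul,
        Real.norm_eq_abs, abs_of_pos hr, mul_lt_mul_iff_right₀ hr]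
    by_cases hz : z ∈ ball (0 : V) R
    · rw [indicator_of_mem hz, indicator_of_mem (this.1 hz)]
    · rw [indicator_of_notMem hz, indicator_of_notMem (mt this.2 hz)]
  simp_rw [h1]
  rw [lintegral_const_mul' _ _ (ENNReal.inv_ne_top.2 (pow_ne_zero _ (by simpa using hr))),
    lintegral_lintegral_swap (f := fun x y => {p : V × V | ‖p.2 - p.1‖ < r * R}.indicator
      (fun p => f p.2) (x, y)) (Measurable.indicator (f := fun p : V × V => f p.2)
        (by fun_prop) hS).aemeasurable, mul_left_comm]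
  gcongr
  rw [mul_comm B, ← lintegral_mul_const _ hf]
  refine lintegral_mono fun y => ?_
  have h2 : ∀ x, {p : V × V | ‖p.2 - p.1‖ < r * R}.indicator (fun p => f p.2) (x, y) =
      (ball y (r * R)).indicator (fun _ => f y) x := by
    intro x
    have : x ∈ ball y (r * R) ↔ (x, y) ∈ {p : V × V | ‖p.2 - p.1‖ < r * R} := by
      rw [mem_ball_iff_norm']; rfl
    by_cases hz : x ∈ ball y (r * R)
    · rw [indicator_of_mem hz, indicator_of_mem (this.1 hz)]
    · rw [indicator_of_notMem hz, indicator_of_notMem (mt this.2 hz)]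
  simp_rw [h2]
  rw [lintegral_indicator measurableSet_ball, setLIntegral_const]
  exact mul_le_mul_right (hB y) _

/-- directional energy -/
def dirE (Φ : Measure V) (q : ℝ) (u : V → F) (r : ℝ) : ℝ≥0∞ :=
  ∫⁻ w, (∫⁻ x, ‖u (x + r • w) - u x‖ₑ ^ q) ∂Φ

lemma measurable_locE (Φ : Measure V) [SFinite Φ] (q R : ℝ) {u : V → F} (hu : Measurable u)
    (r : ℝ) : Measurable (locE Φ q R u r) := by
  unfold locE
  refine Measurable.lintegral_prod_right ?_
  refine Measurable.lintegral_prod_right' (f := fun p : (V × V) × V =>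
    ‖u (p.1.1 + r • p.2 + r • p.1.2) - u (p.1.1 + r • p.2)‖ₑ ^ q) ?_
  fun_prop

lemma lint_locE_le (m Φ : Measure V) [SFinite m] [SFinite Φ] (q : ℝ) {u : V → F}
    (hu : Measurable u) {r R : ℝ}
    (hr : 0 < r) {B : ℝ≥0∞} (hBt : B ≠ ∞) (hB : ∀ x, m (ball x (r * R)) ≤ B) :
    ∫⁻ x, locE Φ q R u r x ∂m ≤ B * ((ENNReal.ofReal r ^ finrank ℝ V)⁻¹ * dirE Φ q u r) := by
  unfold locE dirE
  rw [lintegral_lintegral_swap, ← lintegral_const_mul' _ _
    (ENNReal.inv_ne_top.2 (pow_ne_zero _ (by simpa using hr))), ← lintegral_const_mul' _ _ hBt]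
  · refine lintegral_mono fun w => ?_
    exact averaging m (f := fun y => ‖u (y + r • w) - u y‖ₑ ^ q) (by fun_prop) hr hB
  · refine Measurable.aemeasurable ?_
    refine Measurable.lintegral_prod_right' (f := fun p : (V × V) × V =>
      ‖u (p.1.1 + r • p.2 + r • p.1.2) - u (p.1.1 + r • p.2)‖ₑ ^ q) ?_
    fun_prop

end Pool.Agent.Lib.MP_c377d9_an
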