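import Pool.Agent.Lib.MP_c377d9_an.Main

set_option linter.unusedSectionVars false

noncomputable section

namespace Pool.Agent.Lib.MP_c377d9_an

open MeasureTheory Filter Topology Set Metric Module
open scoped ENNReal NNReal Pointwise

variable {V F : Type*} [NormedAddCommGroup V] [InnerProductSpace ℝ V] [FiniteDimensional ℝ V]
  [MeasurableSpace V] [BorelSpace V] [NormedAddCommGroup F] [NormedSpace ℝ F]
  [MeasurableSpace F] [BorelSpace F] [SecondCountableTopology F] [CompleteSpace F]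

lemma HalfLimit.unique {u : V → F} (hu : Measurable u) {x ν ν' : V} {a a' : F}
    (hν : ‖ν‖ = 1) (hν' : ‖ν'‖ = 1) (hne : ν ≠ -ν') (h : HalfLimit u x ν a)
    (h' : HalfLimit u x ν' a') : a = a' := by
  have h1 : inner ℝ ν (-ν') < (1 : ℝ) :=
    (inner_lt_one_iff_real_of_norm_eq_one hν (by simpa using hν')).2 hne
  rw [inner_neg_right] at h1
  have hνν : inner ℝ ν ν = (1 : ℝ) := by rw [real_inner_self_eq_norm_sq, hν]; norm_num
  have hνν' : inner ℝ ν' ν' = (1 : ℝ) := by rw [real_inner_self_eq_norm_sq, hν']; norm_num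
  set W := hball 0 ν 3 ∩ hball 0 ν' 3 with hW
  have hWo : IsOpen W := (isOpen_hball _ _ _).inter (isOpen_hball _ _ _)
  have hn : ‖ν + ν'‖ < 3 := (norm_add_le _ _).trans_lt (by rw [hν, hν']; norm_num)
  have hWn : W.Nonempty := by
    refine ⟨ν + ν', ⟨by simpa using hn, ?_⟩, ⟨by simpa using hn, ?_⟩⟩
    · rw [sub_zero, inner_add_left, hνν, real_inner_comm]; linarith
    · rw [sub_zero, inner_add_left, hνν']; linarith
  have h2 := (h.scaled hu (R := 3) (by norm_num)).add (h'.scaled hu (R := 3) (by norm_num))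
  rw [add_zero] at h2
  have h3 : ‖a - a'‖ₑ * volume W ≤ 0 := by
    refine ge_of_tendsto' h2 fun r => ?_
    calc ‖a - a'‖ₑ * volume W = ∫⁻ z in W, ‖a - a'‖ₑ := (setLIntegral_const _ _).symm
      _ ≤ ∫⁻ z in W, ‖u (x + r • z) - a‖ₑ + ‖u (x + r • z) - a'‖ₑ := by
          refine lintegral_mono fun z => ?_
          calc ‖a - a'‖ₑ = ‖(u (x + r • z) - a') - (u (x + r • z) - a)‖ₑ := by congr 1; abel
            _ ≤ ‖u (x + r • z) - a'‖ₑ + ‖u (x + r • z) - a‖ₑ := enorm_sub_le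
            _ = _ := add_comm _ _
      _ ≤ _ := by
          rw [lintegral_add_left (by fun_prop)]
          exact add_le_add (lintegral_mono_set inter_subset_left)
            (lintegral_mono_set inter_subset_right)
  rw [nonpos_iff_eq_zero, mul_eq_zero] at h3
  rcases h3 with h3 | h3
  · exact sub_eq_zero.1 (enorm_eq_zero.1 h3)
  · exact absurd h3 (hWo.measure_ne_zero _ hWn)

lemma halfLimit_iff_seq (u : V → F) (x ν : V) (a : F) : HalfLimit u x ν a ↔
    Tendsto (fun k : ℕ => (∫⁻ y in hball x ν (1 / ((k : ℝ) + 1)), ‖u y - a‖ₑ) /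
      ENNReal.ofReal (1 / ((k : ℝ) + 1)) ^ finrank ℝ V) atTop (𝓝 0) := by
  constructor
  · intro h
    refine h.comp (tendsto_nhdsWithin_iff.2 ⟨tendsto_one_div_add_atTop_nhds_zero_nat, ?_⟩)
    exact Eventually.of_forall fun k => mem_Ioi.2 Nat.one_div_pos_of_nat
  · intro h
    have h1 : Tendsto (fun r : ℝ => ⌊r⁻¹⌋₊ - 1) (𝓝[>] 0) atTop :=
      (tendsto_sub_atTop_nat 1).comp (tendsto_nat_floor_atTop.comp tendsto_inv_nhdsGT_zero)
    have h2 := ENNReal.Tendsto.const_mul (a := ENNReal.ofReal 2 ^ finrank ℝ V) (h.comp h1)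
      (Or.inr (ENNReal.pow_ne_top ENNReal.ofReal_ne_top))
    rw [mul_zero] at h2
    refine tendsto_of_tendsto_of_tendsto_of_le_of_le' tendsto_const_nhds h2
      (Eventually.of_forall fun _ => zero_le) ?_
    filter_upwards [Ioo_mem_nhdsGT (show (0 : ℝ) < 1 by norm_num)] with r hr
    have hr1 : 1 ≤ r⁻¹ := (one_le_inv₀ hr.1).2 hr.2.le
    have hk : 1 ≤ ⌊r⁻¹⌋₊ := (Nat.one_le_floor_iff _).2 hr1
    have hk' : (1 : ℝ) ≤ ⌊r⁻¹⌋₊ := by exact_mod_cast hk
    have e : (((⌊r⁻¹⌋₊ - 1 : ℕ) : ℝ) + 1) = ⌊r⁻¹⌋₊ := by rw [Nat.cast_sub hk]; simp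
    have k1 : (⌊r⁻¹⌋₊ : ℝ) ≤ r⁻¹ := Nat.floor_le (by linarith)
    have k2 : r⁻¹ < ⌊r⁻¹⌋₊ + 1 := Nat.lt_floor_add_one _
    simp only [Function.comp, e]
    set s : ℝ := 1 / (⌊r⁻¹⌋₊ : ℝ) with hs
    have hs0 : 0 < s := by positivity
    have k3 : r ≤ s := by
      rw [hs, le_div_iff₀ (by linarith)]
      have := mul_le_mul_of_nonneg_left k1 hr.1.le
      rwa [mul_inv_cancel₀ hr.1.ne'] at this
    have k4 : s ≤ 2 * r := by
      rw [hs, div_le_iff₀ (by linarith)]
      have := mul_le_mul_of_nonneg_left k2.le hr.1.le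
      rw [mul_inv_cancel₀ hr.1.ne'] at this
      nlinarith [hr.1]
    have k5 : ENNReal.ofReal s ^ finrank ℝ V ≠ 0 := pow_ne_zero _ (by simpa using hs0)
    rw [ENNReal.div_le_iff (pow_ne_zero _ (by simpa using hr.1))
      (ENNReal.pow_ne_top ENNReal.ofReal_ne_top)]
    calc _ ≤ ∫⁻ y in hball x ν s, ‖u y - a‖ₑ :=
          lintegral_mono_set fun y hy => ⟨hy.1.trans_le k3, hy.2⟩
      _ = (∫⁻ y in hball x ν s, ‖u y - a‖ₑ) / ENNReal.ofReal s ^ finrank ℝ V *
          ENNReal.ofReal s ^ finrank ℝ V :=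
          (ENNReal.div_mul_cancel k5 (ENNReal.pow_ne_top ENNReal.ofReal_ne_top)).symm
      _ ≤ (∫⁻ y in hball x ν s, ‖u y - a‖ₑ) / ENNReal.ofReal s ^ finrank ℝ V *
          ENNReal.ofReal (2 * r) ^ finrank ℝ V := by gcongr
      _ = _ := by rw [ENNReal.ofReal_mul (by norm_num), mul_pow]; ring

lemma measurableSet_halfLimit {u : V → F} (hu : Measurable u) :
    MeasurableSet {p : V × V × F | HalfLimit u p.1 p.2.1 p.2.2} := by
  simp_rw [halfLimit_iff_seq]
  refine measurableSet_tendsto (𝓝 0) fun k => Measurable.div_const ?_ _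
  have hS : MeasurableSet {p : (V × V × F) × V | p.2 ∈ hball p.1.1 p.1.2.1 (1 / ((k : ℝ) + 1))} := by
    have h1 : IsOpen {p : (V × V × F) × V | ‖p.2 - p.1.1‖ < 1 / ((k : ℝ) + 1)} :=
      isOpen_lt (by fun_prop) (by fun_prop)
    have h2 : IsOpen {p : (V × V × F) × V | 0 < inner ℝ (p.2 - p.1.1) p.1.2.1} :=
      isOpen_lt (by fun_prop) (by fun_prop)
    exact (h1.inter h2).measurableSet
  have := Measurable.lintegral_prod_right' (ν := (volume : Measure V))
    (Measurable.indicator (f := fun p : (V × V × F) × V => ‖u p.2 - p.1.2.2‖ₑ) (by fun_prop) hS)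
  simp_rw [← lintegral_indicator (isOpen_hball _ _ _).measurableSet]
  exact this

lemma jump_borel_measurable {u : V → F} (hu : Measurable u) {up um : V → F}
    (hj : ∀ x ∈ jumpSet u, IsJump u x (up x) (um x)) {S : Set ℝ≥0∞} (hS : MeasurableSet S) :
    MeasurableSet {x | x ∈ jumpSet u ∧ ‖up x - um x‖ₑ ∈ S} := by
  set φ := embeddingReal V with hφ
  have hφm := measurableEmbedding_embeddingReal V
  set G : Set (V × V × F × F) := {p | p.2.2.1 ≠ p.2.2.2 ∧ ‖p.2.1‖ = 1 ∧
    HalfLimit u p.1 p.2.1 p.2.2.1 ∧ HalfLimit u p.1 (-p.2.1) p.2.2.2 ∧ φ p.2.1 < φ (-p.2.1) ∧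
      ‖p.2.2.1 - p.2.2.2‖ₑ ∈ S} with hG
  have hGm : MeasurableSet G := by
    simp only [hG, ofPred_and]
    refine MeasurableSet.inter ?_ (MeasurableSet.inter ?_ (MeasurableSet.inter ?_
      (MeasurableSet.inter ?_ (MeasurableSet.inter ?_ ?_))))
    · exact (isOpen_ne_fun (by fun_prop) (by fun_prop)).measurableSet
    · exact (isClosed_eq (by fun_prop) (by fun_prop)).measurableSet
    · exact (measurableSet_halfLimit hu).preimage
        (f := fun p : V × V × F × F => (p.1, p.2.1, p.2.2.1)) (by fun_prop)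
    · exact (measurableSet_halfLimit hu).preimage
        (f := fun p : V × V × F × F => (p.1, -p.2.1, p.2.2.2)) (by fun_prop)
    · exact measurableSet_lt (hφm.measurable.comp (by fun_prop))
        (hφm.measurable.comp (by fun_prop))
    · exact hS.preimage (f := fun p : V × V × F × F => ‖p.2.2.1 - p.2.2.2‖ₑ) (by fun_prop)
  have huniq : ∀ {x ν ν' : V} {a b a' b' : F}, a ≠ b → ‖ν‖ = 1 → ‖ν'‖ = 1 →
      HalfLimit u x ν a → HalfLimit u x (-ν) b → HalfLimit u x ν' a' → HalfLimit u x (-ν') b' →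
      (ν = ν' ∧ a = a' ∧ b = b') ∨ (ν = -ν' ∧ a = b' ∧ b = a') := by
    intro x ν ν' a b a' b' hab hν hν' h1 h2 h3 h4
    have hself : ∀ z : V, ‖z‖ = 1 → z ≠ -z := by
      intro z hz h
      have : (2 : ℝ) • z = 0 := by rw [two_smul]; nth_rw 1 [h]; simp
      rw [smul_eq_zero] at this
      rcases this with h | h
      · norm_num at h
      · rw [h] at hz; simp at hz
    by_cases h : ν = -ν'
    · subst h
      rw [neg_neg] at h2
      exact Or.inr ⟨rfl, h1.unique hu hν hν (hself _ hν) h4, h2.unique hu hν' hν' (hself _ hν') h3⟩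
    · have e1 := h1.unique hu hν hν' h h3
      have e2 := h2.unique hu (by simpa using hν) (by simpa using hν')
        (by rw [neg_neg]; exact fun k => h (neg_eq_iff_eq_neg.1 k)) h4
      refine Or.inl ⟨?_, e1, e2⟩
      by_contra k
      exact hab ((h1.unique hu hν (by simpa using hν') (by rwa [neg_neg]) h4).trans e2.symm)
  have hinj : InjOn Prod.fst G := by
    rintro ⟨x, ν, a, b⟩ ⟨h1, h2, h3, h4, h5, -⟩ ⟨x', ν', a', b'⟩ ⟨-, h2', h3', h4', h5', -⟩ hx
    dsimp only at *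
    subst hx
    rcases huniq h1 h2 h2' h3 h4 h3' h4' with ⟨rfl, rfl, rfl⟩ | ⟨rfl, -, -⟩
    · rfl
    · rw [neg_neg] at h5
      exact absurd h5 (not_lt.2 h5'.le)
  have himg : {x | x ∈ jumpSet u ∧ ‖up x - um x‖ₑ ∈ S} = Prod.fst '' G := by
    ext x
    constructor
    · rintro ⟨hx, hxS⟩
      obtain ⟨hab, ν, hν, h1, h2⟩ := hj x hx
      rcases lt_trichotomy (φ ν) (φ (-ν)) with h | h | h
      · exact ⟨(x, ν, up x, um x), ⟨hab, hν, h1, h2, h, hxS⟩, rfl⟩
      · have h3 := hφm.injective h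
        exfalso
        have : (2 : ℝ) • ν = 0 := by rw [two_smul]; nth_rw 1 [h3]; simp
        rw [smul_eq_zero] at this
        rcases this with h | h
        · norm_num at h
        · rw [h] at hν; simp at hν
      · refine ⟨(x, -ν, um x, up x), ⟨hab.symm, by simpa using hν, h2, by rwa [neg_neg],
          by rwa [neg_neg], by rwa [enorm_sub_rev]⟩, rfl⟩
    · rintro ⟨⟨x, ν, a, b⟩, ⟨h1, h2, h3, h4, -, h6⟩, rfl⟩
      have hx : x ∈ jumpSet u := ⟨a, b, h1, ν, h2, h3, h4⟩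
      refine ⟨hx, ?_⟩
      obtain ⟨-, ν', hν', k1, k2⟩ := hj x hx
      dsimp only at *
      rcases huniq h1 h2 hν' h3 h4 k1 k2 with ⟨-, rfl, rfl⟩ | ⟨-, rfl, rfl⟩
      · exact h6
      · rwa [enorm_sub_rev]
  rw [himg]
  exact hGm.image_of_measurable_injOn measurable_fst hinj

omit [MeasurableSpace F] [BorelSpace F] in
theorem jump_borel {u : V → F} (hu : AEStronglyMeasurable u volume) {up um : V → F}
    (hj : ∀ x ∈ jumpSet u, IsJump u x (up x) (um x)) :
    MeasurableSet (jumpSet u) ∧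
      Measurable ((jumpSet u).indicator fun x => ‖up x - um x‖ₑ) := by
  borelize F
  have huv : u =ᵐ[volume] hu.mk u := hu.ae_eq_mk
  have hJ : jumpSet u = jumpSet (hu.mk u) := by
    ext x
    simp only [jumpSet, mem_ofPred_eq, isJump_congr huv]
  have key : ∀ S : Set ℝ≥0∞, MeasurableSet S →
      MeasurableSet {x | x ∈ jumpSet u ∧ ‖up x - um x‖ₑ ∈ S} := by
    intro S hS
    rw [hJ]
    exact jump_borel_measurable hu.stronglyMeasurable_mk.measurable
      (fun x hx => (isJump_congr huv _ _ _).1 (hj x (hJ ▸ hx))) hS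
  have h1 : MeasurableSet (jumpSet u) := by simpa using key univ MeasurableSet.univ
  refine ⟨h1, fun S hS => ?_⟩
  classical
  rw [indicator_preimage]
  refine MeasurableSet.union ?_ ((measurable_const hS).diff h1)
  have := key S hS
  rwa [ofPred_and, inter_comm] at this

end Pool.Agent.Lib.MP_c377d9_an
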