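import Pool.Agent.Lib.MP_c377d9_an.Sphere

set_option linter.unusedSectionVars false

noncomputable section

namespace Pool.Agent.Lib.MP_c377d9_an

open MeasureTheory Filter Topology Set Metric Module
open scoped ENNReal NNReal Pointwise

variable {V F : Type*} [NormedAddCommGroup V] [InnerProductSpace ℝ V] [FiniteDimensional ℝ V]
  [MeasurableSpace V] [BorelSpace V] [NormedAddCommGroup F] [NormedSpace ℝ F]
  [MeasurableSpace F] [BorelSpace F] [SecondCountableTopology F]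

lemma Flat.closure {Γ : Set V} {e : V} {lam : ℝ} (h : Flat Γ e lam) :
    Flat (closure Γ) e lam := by
  have hc : IsClosed {p : V × V | |inner ℝ (p.1 - p.2) e| ≤ lam * ‖p.1 - p.2‖} :=
    isClosed_le (by fun_prop) (by fun_prop)
  intro x hx y hy
  have h1 : (x, y) ∈ _root_.closure (Γ ×ˢ Γ) := by rw [closure_prod_eq]; exact ⟨hx, hy⟩
  exact closure_minimal (s := Γ ×ˢ Γ) (fun p hp => h p.1 hp.1 p.2 hp.2) hc h1

/-- half ball -/
def hball (x ν : V) (r : ℝ) : Set V := {y | ‖y - x‖ < r ∧ 0 < inner ℝ (y - x) ν}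

lemma isOpen_hball (x ν : V) (r : ℝ) : IsOpen (hball x ν r) := by
  have h1 : IsOpen {y : V | ‖y - x‖ < r} := isOpen_lt (by fun_prop) (by fun_prop)
  have h2 : IsOpen {y : V | 0 < inner ℝ (y - x) ν} := isOpen_lt (by fun_prop) (by fun_prop)
  exact h1.inter h2

lemma HalfLimit.exists_bound {u : V → F} {x ν : V} {a : F} (h : HalfLimit u x ν a) {τ : ℝ≥0∞}
    (hτ : 0 < τ) : ∃ ρ0 > 0, ∀ r ∈ Ioo (0 : ℝ) ρ0,
      ∫⁻ y in hball x ν r, ‖u y - a‖ₑ ≤ τ * ENNReal.ofReal r ^ finrank ℝ V := by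
  have h1 := h.eventually (gt_mem_nhds hτ)
  obtain ⟨ρ0, hρ0, h2⟩ := mem_nhdsGT_iff_exists_Ioo_subset.1 h1
  refine ⟨ρ0, hρ0, fun r hr => ?_⟩
  have h3 := (h2 hr).out.le
  exact (ENNReal.div_le_iff (pow_ne_zero _ (by simpa using hr.1))
    (ENNReal.pow_ne_top ENNReal.ofReal_ne_top)).1 h3

lemma mid_ball_subset {x y e ν : V} {lam : ℝ} (hl1 : lam ≤ 1)
    (hν : ‖ν - e‖ < lam / 4) (hxy : lam * ‖y - x‖ < inner ℝ (y - x) e) (he : ‖e‖ = 1) :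
    ball (x + (1 / 2 : ℝ) • (y - x)) (lam / 4 * ‖y - x‖) ⊆ hball x ν ‖y - x‖ := by
  intro z hz
  set d := y - x with hd
  set w := z - (x + (1 / 2 : ℝ) • d) with hw
  have hw1 : ‖w‖ < lam / 4 * ‖d‖ := mem_ball_iff_norm.1 hz
  have hzx : z - x = (1 / 2 : ℝ) • d + w := by rw [hw]; abel
  have hl0 : 0 < lam := by have := norm_nonneg (ν - e); linarith
  have hd0 : 0 ≤ ‖d‖ := norm_nonneg _
  have hn : ‖z - x‖ < ‖d‖ := by
    rw [hzx]
    calc _ ≤ ‖(1 / 2 : ℝ) • d‖ + ‖w‖ := norm_add_le _ _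
      _ < ‖d‖ := by
        rw [norm_smul, Real.norm_eq_abs, abs_of_pos (by norm_num)]
        nlinarith
  refine ⟨hn, ?_⟩
  have h1 : inner ℝ (z - x) ν = inner ℝ (z - x) e + inner ℝ (z - x) (ν - e) := by
    rw [inner_sub_right]; ring
  have h2 : inner ℝ (z - x) e = (1 / 2 : ℝ) * inner ℝ d e + inner ℝ w e := by
    rw [hzx, inner_add_left, inner_smul_left]; simp
  have h3 := (abs_le.1 (abs_real_inner_le_norm w e)).1
  rw [he, mul_one] at h3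
  have h4 := (abs_le.1 (abs_real_inner_le_norm (z - x) (ν - e))).1
  have h5 : ‖z - x‖ * ‖ν - e‖ ≤ ‖d‖ * (lam / 4) :=
    mul_le_mul hn.le hν.le (norm_nonneg _) hd0
  rw [h1, h2]
  nlinarith

lemma exists_flat_cover {u : V → F} (hu : Measurable u) {lam : ℝ} (hl0 : 0 < lam)
    (hl1 : lam ≤ 1) : ∃ T : Set (Set V × V), T.Countable ∧
      (∀ p ∈ T, IsClosed p.1 ∧ ‖p.2‖ = 1 ∧ Flat p.1 p.2 lam) ∧ jumpSet u ⊆ ⋃ p ∈ T, p.1 := by
  set N := finrank ℝ V with hN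
  set ω : ℝ≥0∞ := ENNReal.ofReal (lam / 4) ^ N * volume (ball (0 : V) 1) with hω
  have hω0 : ω ≠ 0 := mul_ne_zero (pow_ne_zero _ (by simpa using hl0))
    (measure_ball_pos _ _ one_pos).ne'
  have hωt : ω ≠ ∞ := ENNReal.mul_ne_top (ENNReal.pow_ne_top ENNReal.ofReal_ne_top)
    measure_ball_lt_top.ne
  set S : Set (V × F × F × V × ℝ) := {p | p.2.1 ≠ p.2.2.1 ∧ ‖p.2.2.2.1‖ = 1 ∧ 0 < p.2.2.2.2 ∧
    ∀ r ∈ Ioo (0 : ℝ) p.2.2.2.2,
      ∫⁻ y in hball p.1 p.2.2.2.1 r, ‖u y - p.2.1‖ₑ ≤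
        ENNReal.ofReal (‖p.2.1 - p.2.2.1‖ / 8) * ω * ENNReal.ofReal r ^ N ∧
      ∫⁻ y in hball p.1 (-p.2.2.2.1) r, ‖u y - p.2.2.1‖ₑ ≤
        ENNReal.ofReal (‖p.2.1 - p.2.2.1‖ / 8) * ω * ENNReal.ofReal r ^ N} with hS
  set U : V × F × F × V × ℝ → Set (V × F × F × V × ℝ) := fun p0 =>
    {p | ‖p.1 - p0.1‖ < p0.2.2.2.2 / 8 ∧ ‖p.2.1 - p0.2.1‖ < ‖p0.2.1 - p0.2.2.1‖ / 8 ∧
      ‖p.2.2.1 - p0.2.2.1‖ < ‖p0.2.1 - p0.2.2.1‖ / 8 ∧ ‖p.2.2.2.1 - p0.2.2.2.1‖ < lam / 4 ∧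
      p0.2.2.2.2 / 2 < p.2.2.2.2} with hU
  have hUn : ∀ p0 ∈ S, U p0 ∈ 𝓝[S] p0 := by
    intro p0 hp0
    refine mem_nhdsWithin_of_mem_nhds (IsOpen.mem_nhds ?_ ?_)
    · simp only [hU, ofPred_and]
      refine IsOpen.inter ?_ (IsOpen.inter ?_ (IsOpen.inter ?_ (IsOpen.inter ?_ ?_))) <;>
        exact isOpen_lt (by fun_prop) (by fun_prop)
    · have h1 : 0 < ‖p0.2.1 - p0.2.2.1‖ := norm_pos_iff.2 (sub_ne_zero.2 hp0.1)
      have h2 := hp0.2.2.1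
      simp only [hU, mem_ofPred_eq, sub_self, norm_zero]
      refine ⟨by linarith, by linarith, by linarith, by linarith, by linarith⟩
  obtain ⟨T, hTS, hTc, hTcov⟩ := TopologicalSpace.countable_cover_nhdsWithin hUn
  have hone : ∀ p0 ∈ S, ∀ p ∈ S ∩ U p0, ∀ p' ∈ S ∩ U p0,
      inner ℝ (p'.1 - p.1) p0.2.2.2.1 ≤ lam * ‖p'.1 - p.1‖ := by
    rintro ⟨x0, a0, b0, e, ρ0⟩ ⟨h01, h02, h03, -⟩ ⟨x, a, b, ν, ρ⟩
      ⟨⟨-, -, -, hp⟩, hx, ha, hb, hν, hρ⟩ ⟨y, a', b', ν', ρ'⟩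
      ⟨⟨-, -, -, hp'⟩, hy, ha', hb', hν', hρ'⟩
    dsimp only at *
    by_contra hcon
    push Not at hcon
    have hyx : 0 < ‖y - x‖ := by
      rcases (norm_nonneg (y - x)).eq_or_lt with h | h
      · have : y - x = 0 := norm_eq_zero.1 h.symm
        rw [this] at hcon
        simp at hcon
      · exact h
    have hyx' : ‖y - x‖ < ρ0 / 4 := by
      calc ‖y - x‖ = ‖(y - x0) - (x - x0)‖ := by congr 1; abel
        _ ≤ ‖y - x0‖ + ‖x - x0‖ := norm_sub_le _ _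
        _ < _ := by linarith
    have hB1 := mid_ball_subset hl1 hν hcon h02
    have hB2 : ball (x + (1 / 2 : ℝ) • (y - x)) (lam / 4 * ‖y - x‖) ⊆ hball y (-ν') ‖y - x‖ := by
      have := mid_ball_subset (x := y) (y := x) (e := -e) (ν := -ν') hl1
        (by rw [← norm_neg, neg_sub, neg_sub_neg]; exact hν')
        (by rw [norm_sub_rev, inner_neg_right, ← inner_neg_left, neg_sub]; exact hcon)
        (by simpa using h02)
      rw [norm_sub_rev x y] at this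
      have h2 : y + (1 / 2 : ℝ) • (x - y) = x + (1 / 2 : ℝ) • (y - x) := by module
      rwa [h2] at this
    set B := ball (x + (1 / 2 : ℝ) • (y - x)) (lam / 4 * ‖y - x‖) with hB
    have hvol : volume B = ω * ENNReal.ofReal ‖y - x‖ ^ N := by
      rw [hB, Measure.addHaar_ball_of_pos _ _ (by positivity), hω, mul_pow,
        ENNReal.ofReal_mul (by positivity), ENNReal.ofReal_pow (by positivity),
        ENNReal.ofReal_pow (by positivity)]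
      ring
    have h1 := (hp ‖y - x‖ ⟨hyx, by linarith⟩).1
    have h2 := (hp' ‖y - x‖ ⟨hyx, by linarith⟩).2
    have h3 : ENNReal.ofReal ‖a - b'‖ * volume B ≤
        (∫⁻ z in B, ‖u z - a‖ₑ) + ∫⁻ z in B, ‖u z - b'‖ₑ := by
      rw [← setLIntegral_const, ← lintegral_add_left (by fun_prop)]
      refine lintegral_mono fun z => ?_
      rw [ofReal_norm]
      calc ‖a - b'‖ₑ = ‖(u z - b') - (u z - a)‖ₑ := by congr 1; abel
        _ ≤ _ := by rw [add_comm]; exact enorm_sub_le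
    have h4 : ENNReal.ofReal ‖a - b'‖ * (ω * ENNReal.ofReal ‖y - x‖ ^ N) ≤
        ENNReal.ofReal (‖a - b‖ / 8 + ‖a' - b'‖ / 8) * (ω * ENNReal.ofReal ‖y - x‖ ^ N) := by
      rw [ENNReal.ofReal_add (by positivity) (by positivity), add_mul]
      rw [hvol] at h3
      refine h3.trans (add_le_add ?_ ?_)
      · exact (lintegral_mono_set hB1).trans (h1.trans_eq (mul_assoc _ _ _))
      · exact (lintegral_mono_set hB2).trans (h2.trans_eq (mul_assoc _ _ _))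
    rw [ENNReal.mul_le_mul_iff_left (mul_ne_zero hω0 (pow_ne_zero _ (by simpa using hyx)))
      (ENNReal.mul_ne_top hωt (ENNReal.pow_ne_top ENNReal.ofReal_ne_top)),
      ENNReal.ofReal_le_ofReal_iff (by positivity)] at h4
    have ht : 0 < ‖a0 - b0‖ := norm_pos_iff.2 (sub_ne_zero.2 h01)
    have k1 : ‖a0 - b0‖ ≤ ‖a - b'‖ + ‖a - a0‖ + ‖b' - b0‖ := by
      calc ‖a0 - b0‖ = ‖(a - b') - (a - a0) + (b' - b0)‖ := by congr 1; abel
        _ ≤ _ := (norm_add_le _ _).trans (by gcongr; exact norm_sub_le _ _)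
    have k2 : ‖a - b‖ ≤ ‖a0 - b0‖ + ‖a - a0‖ + ‖b - b0‖ := by
      calc ‖a - b‖ = ‖(a0 - b0) + (a - a0) - (b - b0)‖ := by congr 1; abel
        _ ≤ _ := (norm_sub_le _ _).trans (by gcongr; exact norm_add_le _ _)
    have k3 : ‖a' - b'‖ ≤ ‖a0 - b0‖ + ‖a' - a0‖ + ‖b' - b0‖ := by
      calc ‖a' - b'‖ = ‖(a0 - b0) + (a' - a0) - (b' - b0)‖ := by congr 1; abel
        _ ≤ _ := (norm_sub_le _ _).trans (by gcongr; exact norm_add_le _ _)
    linarith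
  refine ⟨(fun p0 => (closure (Prod.fst '' (S ∩ U p0)), p0.2.2.2.1)) '' T, hTc.image _, ?_, ?_⟩
  · rintro _ ⟨p0, hp0, rfl⟩
    refine ⟨isClosed_closure, (hTS hp0).2.1, Flat.closure ?_⟩
    rintro _ ⟨p, hp, rfl⟩ _ ⟨p', hp', rfl⟩
    rw [abs_le]
    refine ⟨?_, hone p0 (hTS hp0) p' hp' p hp⟩
    have := hone p0 (hTS hp0) p hp p' hp'
    rw [norm_sub_rev, ← neg_sub, inner_neg_left] at this
    linarith
  · rintro x ⟨a, b, hab, ν, hν, h1, h2⟩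
    have hτ : 0 < ENNReal.ofReal (‖a - b‖ / 8) * ω := by
      have : 0 < ‖a - b‖ := norm_pos_iff.2 (sub_ne_zero.2 hab)
      exact ENNReal.mul_pos (by simpa using this) hω0
    obtain ⟨ρ1, hρ1, k1⟩ := h1.exists_bound hτ
    obtain ⟨ρ2, hρ2, k2⟩ := h2.exists_bound hτ
    have hp : (x, a, b, ν, min ρ1 ρ2) ∈ S :=
      ⟨hab, hν, lt_min hρ1 hρ2, fun r hr =>
        ⟨k1 r ⟨hr.1, hr.2.trans_le (min_le_left _ _)⟩,
          k2 r ⟨hr.1, hr.2.trans_le (min_le_right _ _)⟩⟩⟩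
    obtain ⟨p0, hp0, hp'⟩ := mem_iUnion₂.1 (hTcov hp)
    exact mem_iUnion₂.2 ⟨_, mem_image_of_mem _ hp0, subset_closure ⟨_, ⟨hp, hp'⟩, rfl⟩⟩

lemma exists_exhaustion (n : ℕ) {u : V → F} (hu : Measurable u) {lam : ℝ} (hl0 : 0 < lam)
    (hl1 : lam < 1) {e0 : V} (he0 : ‖e0‖ = 1) :
    ∃ A : ℕ → Set V, Monotone A ∧ jumpSet u ⊆ ⋃ j, A j ∧ ∀ j, ∃ ρ0 > 0, ∀ x, ∀ ρ ∈ Ioo (0 : ℝ) ρ0,
      (μHE[n] : Measure V) (A j ∩ ball x ρ) ≤
        ENNReal.ofReal ((1 - lam)⁻¹) ^ n * (ENNReal.ofReal ρ ^ n * μHE[n] (disc e0 1)) := by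
  obtain ⟨T, hTc, hT, hcov⟩ := exists_flat_cover hu hl0 hl1.le
  obtain ⟨p, hp⟩ := (hTc.insert (∅, e0)).exists_eq_range (insert_nonempty _ _)
  have hp' : ∀ i, IsClosed (p i).1 ∧ ‖(p i).2‖ = 1 ∧ Flat (p i).1 (p i).2 lam := by
    intro i
    have : p i ∈ insert (∅, e0) T := hp ▸ mem_range_self i
    rcases this with h | h
    · rw [h]; exact ⟨isClosed_empty, he0, fun x hx => hx.elim⟩
    · exact hT _ h
  refine ⟨fun j => {x | ∃ i < j, x ∈ (p i).1 ∧ ∀ k < i, ∀ y ∈ (p k).1,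
    1 / ((j : ℝ) + 1) ≤ dist x y}, ?_, ?_, ?_⟩
  · rintro j j' hjj' x ⟨i, hi, h1, h2⟩
    refine ⟨i, hi.trans_le hjj', h1, fun k hk y hy => le_trans ?_ (h2 k hk y hy)⟩
    exact Nat.one_div_le_one_div hjj'
  · intro x hx
    obtain ⟨q, hq, hxq⟩ := mem_iUnion₂.1 (hcov hx)
    have hex : ∃ i, x ∈ (p i).1 := by
      have : q ∈ range p := hp ▸ mem_insert_of_mem _ hq
      obtain ⟨i, rfl⟩ := this
      exact ⟨i, hxq⟩
    classical
    have h1 : ∀ k ∈ Iio (Nat.find hex), ∀ᶠ j : ℕ in atTop, ∀ y ∈ (p k).1,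
        1 / ((j : ℝ) + 1) ≤ dist x y := by
      intro k hk
      obtain ⟨δ, hδ, hδ'⟩ := Metric.isOpen_iff.1 (hp' k).1.isOpen_compl x (Nat.find_min hex hk)
      filter_upwards [(tendsto_one_div_add_atTop_nhds_zero_nat (𝕜 := ℝ)).eventually
        (gt_mem_nhds hδ)] with j hj y hy
      by_contra hcon
      push Not at hcon
      exact hδ' (show y ∈ ball x δ by rw [mem_ball, dist_comm]; linarith) hy
    obtain ⟨j, hj1, hj2⟩ := (((Set.finite_Iio _).eventually_all.2 h1).and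
      (eventually_gt_atTop (Nat.find hex))).exists
    exact mem_iUnion.2 ⟨j, Nat.find hex, hj2, Nat.find_spec hex, hj1⟩
  · intro j
    refine ⟨1 / ((j : ℝ) + 1) / 2, by positivity, fun x ρ hρ => ?_⟩
    rcases ({x | ∃ i < j, x ∈ (p i).1 ∧ ∀ k < i, ∀ y ∈ (p k).1,
      1 / ((j : ℝ) + 1) ≤ dist x y} ∩ ball x ρ).eq_empty_or_nonempty with h | ⟨y, hy, hyx⟩
    · rw [h]; simp
    obtain ⟨i, -, hi1, hi2⟩ := hy
    rw [HE_disc_eq n (he0.trans (hp' i).2.1.symm)]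
    refine le_trans (measure_mono ?_) (HE_flat_le n (hp' i).2.1 hl1 (hp' i).2.2 x hρ.1)
    rintro z ⟨⟨k, -, hk1, hk2⟩, hzx⟩
    refine ⟨?_, hzx⟩
    have hd : dist y z < 1 / ((j : ℝ) + 1) := by
      have := dist_triangle_right y z x
      rw [mem_ball] at hyx hzx
      linarith [hρ.2]
    rcases lt_trichotomy k i with h | rfl | h
    · exact absurd (hi2 k h z hk1) (not_le.2 hd)
    · exact hk1
    · exact absurd (hk2 i h y hi1) (not_le.2 (by rwa [dist_comm]))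

end Pool.Agent.Lib.MP_c377d9_an
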