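import Mathlib

/-!
Definitions for MP_c377d9_an: approximate jump points, Gagliardo energy, the Besov class,
mollification.
-/

noncomputable section

namespace Pool.Agent.Lib.MP_c377d9_an

open MeasureTheory Filter Topology
open scoped ENNReal

variable {V F : Type*} [NormedAddCommGroup V] [InnerProductSpace ℝ V] [FiniteDimensional ℝ V]
  [MeasurableSpace V] [BorelSpace V] [NormedAddCommGroup F] [NormedSpace ℝ F]

/-- `r^{-N} ∫_{B_r^+(x,ν)} |u - a| → 0` as `r → 0+`. -/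
def HalfLimit (u : V → F) (x ν : V) (a : F) : Prop :=
  Tendsto (fun r : ℝ => (∫⁻ y in {y | ‖y - x‖ < r ∧ 0 < inner ℝ (y - x) ν}, enorm (u y - a)) /
    ENNReal.ofReal r ^ Module.finrank ℝ V) (𝓝[>] 0) (𝓝 0)

/-- `x` is an approximate jump point of `u` with one-sided values `a ≠ b`. -/
def IsJump (u : V → F) (x : V) (a b : F) : Prop :=
  a ≠ b ∧ ∃ ν : V, ‖ν‖ = 1 ∧ HalfLimit u x ν a ∧ HalfLimit u x (-ν) b

/-- The approximate jump set `J_u`. -/
def jumpSet (u : V → F) : Set V := {x | ∃ a b, IsJump u x a b}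

/-- The `q`-th power of the Gagliardo seminorm of `W^{1/q,q}`. -/
def gagliardo (q : ℝ) (v : V → F) : ℝ≥0∞ :=
  ∫⁻ x, ∫⁻ y, enorm (v x - v y) ^ q / enorm (x - y) ^ (Module.finrank ℝ V + 1)

/-- Membership in `B^{1/q}_{q,∞}`. -/
def MemBesov (q : ℝ) (u : V → F) : Prop :=
  MemLp u (ENNReal.ofReal q) volume ∧
    (⨆ (h : V) (_ : h ≠ 0), ∫⁻ x, enorm (u (x + h) - u x) ^ q / enorm h) < ∞

/-- `u_ε(x) = ∫ η(z) u(x - εz) dz`. -/
def mollify (η : V → ℝ) (u : V → F) (ε : ℝ) (x : V) : F := ∫ z, η z • u (x - ε • z)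

end Pool.Agent.Lib.MP_c377d9_an
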