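import Pool.Agent.Lib.MP_c377d9_an.Defs

set_option linter.unusedSectionVars false

noncomputable section

namespace Pool.Agent.Lib.MP_c377d9_an

open MeasureTheory Filter Topology Set Metric Module
open scoped ENNReal NNReal Pointwise

variable {V : Type*} [NormedAddCommGroup V] [InnerProductSpace ℝ V] [FiniteDimensional ℝ V]
  [MeasurableSpace V] [BorelSpace V]

/-- the open disc of radius `ρ` in the hyperplane orthogonal to `ν` -/
def disc (ν : V) (ρ : ℝ) : Set V := {z | ‖z‖ < ρ ∧ inner ℝ z ν = 0}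

lemma disc_eq_smul (ν : V) {ρ : ℝ} (hρ : 0 < ρ) : disc ν ρ = ρ • disc ν 1 := by
  ext z
  rw [mem_smul_set_iff_inv_smul_mem₀ hρ.ne']
  simp only [disc, mem_ofPred_eq, norm_smul, norm_inv, Real.norm_eq_abs, abs_of_pos hρ,
    inner_smul_left, conj_trivial, mul_eq_zero, inv_eq_zero, hρ.ne', false_or]
  rw [inv_mul_lt_iff₀ hρ, mul_one]

lemma HE_smul (n : ℕ) {ρ : ℝ} (hρ : 0 < ρ) (s : Set V) :
    (μHE[n] : Measure V) (ρ • s) = ENNReal.ofReal ρ ^ n * μHE[n] s := by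
  rw [Measure.euclideanHausdorffMeasure_smul₀ n hρ.ne', ENNReal.smul_def, smul_eq_mul]
  congr 1
  rw [ENNReal.coe_pow, ← enorm_eq_nnnorm, Real.enorm_eq_ofReal hρ.le]

lemma HE_disc (n : ℕ) (ν : V) {ρ : ℝ} (hρ : 0 < ρ) :
    (μHE[n] : Measure V) (disc ν ρ) = ENNReal.ofReal ρ ^ n * μHE[n] (disc ν 1) := by
  rw [disc_eq_smul ν hρ, HE_smul n hρ]

lemma exists_rot {ν e : V} (h : ‖ν‖ = ‖e‖) : ∃ T : V ≃ₗᵢ[ℝ] V, T ν = e :=
  ⟨_, Submodule.reflection_sub h⟩

lemma HE_disc_eq (n : ℕ) {ν e : V} (h : ‖ν‖ = ‖e‖) :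
    (μHE[n] : Measure V) (disc ν 1) = μHE[n] (disc e 1) := by
  obtain ⟨T, hT⟩ := exists_rot h
  rw [← T.isometry.euclideanHausdorffMeasure_image]
  congr 1
  ext z
  constructor
  · rintro ⟨y, ⟨hy1, hy2⟩, rfl⟩
    refine ⟨by simpa using hy1, ?_⟩
    rw [← hT, T.inner_map_map]; exact hy2
  · rintro ⟨h1, h2⟩
    refine ⟨T.symm z, ⟨by simpa using h1, ?_⟩, by simp⟩
    rw [← T.inner_map_map, hT]; simpa using h2

lemma HE_disc_vol {n : ℕ} (hn : finrank ℝ V = n + 1) {ν : V} (hν : ‖ν‖ = 1) :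
    (μHE[n] : Measure V) (disc ν 1) = volume (ball (0 : (ℝ ∙ ν)ᗮ) 1) := by
  have hν0 : ν ≠ 0 := by rintro rfl; simp at hν
  have hr : finrank ℝ (ℝ ∙ ν)ᗮ = n := by
    have := (ℝ ∙ ν).finrank_add_finrank_orthogonal
    rw [finrank_span_singleton hν0] at this
    omega
  rw [← InnerProductSpace.euclideanHausdorffMeasure_eq_volume, hr,
    ← (ℝ ∙ ν)ᗮ.subtypeₗᵢ.isometry.euclideanHausdorffMeasure_image]
  congr 1
  ext z
  constructor
  · rintro ⟨h1, h2⟩
    refine ⟨⟨z, ?_⟩, by simpa using h1, rfl⟩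
    rw [Submodule.mem_orthogonal_singleton_iff_inner_left]; exact h2
  · rintro ⟨y, hy, rfl⟩
    refine ⟨by simpa using hy, ?_⟩
    exact Submodule.mem_orthogonal_singleton_iff_inner_left.1 y.2

lemma HE_disc_lt_top {n : ℕ} (hn : finrank ℝ V = n + 1) {ν : V} (hν : ‖ν‖ = 1) :
    (μHE[n] : Measure V) (disc ν 1) < ∞ := by
  rw [HE_disc_vol hn hν]; exact measure_ball_lt_top

lemma HE_disc_pos {n : ℕ} (hn : finrank ℝ V = n + 1) {ν : V} (hν : ‖ν‖ = 1) :
    0 < (μHE[n] : Measure V) (disc ν 1) := by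
  rw [HE_disc_vol hn hν]; exact measure_ball_pos _ _ one_pos

lemma HE_translate (n : ℕ) (a : V) (s : Set V) :
    (μHE[n] : Measure V) ((fun z => a + z) '' s) = μHE[n] s :=
  (isometry_add_left a).euclideanHausdorffMeasure_image s

lemma HE_image_le (n : ℕ) {K : ℝ≥0} {f : V → V} {s : Set V} (h : LipschitzOnWith K f s) :
    (μHE[n] : Measure V) (f '' s) ≤ (K : ℝ≥0∞) ^ n * μHE[n] s := by
  have := h.hausdorffMeasure_image_le (d := (n : ℝ)) (by positivity)
  rw [ENNReal.rpow_natCast] at this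
  simp only [Measure.euclideanHausdorffMeasure_def, Measure.smul_apply, ENNReal.smul_def,
    smul_eq_mul]
  calc _ ≤ _ * ((K : ℝ≥0∞) ^ n * μH[n] s) := by gcongr
    _ = _ := by ring

/-- `Γ` is `lam`-flat with respect to the direction `e`. -/
def Flat (Γ : Set V) (e : V) (lam : ℝ) : Prop :=
  ∀ x ∈ Γ, ∀ y ∈ Γ, |inner ℝ (x - y) e| ≤ lam * ‖x - y‖

lemma HE_flat_le (n : ℕ) {Γ : Set V} {e : V} (he : ‖e‖ = 1) {lam : ℝ} (hl1 : lam < 1)
    (hΓ : Flat Γ e lam) (x : V) {ρ : ℝ} (hρ : 0 < ρ) :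
    (μHE[n] : Measure V) (Γ ∩ ball x ρ) ≤
      ENNReal.ofReal ((1 - lam)⁻¹) ^ n * (ENNReal.ofReal ρ ^ n * μHE[n] (disc e 1)) := by
  classical
  set π : V → V := fun z => z - inner ℝ z e • e with hπ
  have hpos : 0 < 1 - lam := by linarith
  have hee : inner ℝ e e = (1 : ℝ) := by rw [real_inner_self_eq_norm_sq, he]; norm_num
  have hkey : ∀ y ∈ Γ, ∀ z ∈ Γ, ‖y - z‖ ≤ (1 - lam)⁻¹ * ‖π y - π z‖ := by
    intro y hy z hz
    have h1 : y - z = (π y - π z) + inner ℝ (y - z) e • e := by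
      simp only [hπ, inner_sub_left, sub_smul]; abel
    have h2 : ‖y - z‖ ≤ ‖π y - π z‖ + lam * ‖y - z‖ := by
      calc ‖y - z‖ = ‖(π y - π z) + inner ℝ (y - z) e • e‖ := by rw [← h1]
        _ ≤ ‖π y - π z‖ + ‖inner ℝ (y - z) e • e‖ := norm_add_le _ _
        _ ≤ _ := by
          rw [norm_smul, he, mul_one, Real.norm_eq_abs]
          linarith [hΓ y hy z hz]
    rw [le_inv_mul_iff₀ hpos]
    linarith
  have hinj : InjOn π (Γ ∩ ball x ρ) := by
    intro y hy z hz h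
    have := hkey y hy.1 z hz.1
    rw [h, sub_self, norm_zero, mul_zero] at this
    exact sub_eq_zero.1 (norm_le_zero_iff.1 this)
  set g : V → V := Function.invFunOn π (Γ ∩ ball x ρ) with hg
  have hgπ : ∀ y ∈ Γ ∩ ball x ρ, g (π y) = y := fun y hy => hinj.leftInvOn_invFunOn hy
  have hlip : LipschitzOnWith (Real.toNNReal (1 - lam)⁻¹) g (π '' (Γ ∩ ball x ρ)) := by
    refine LipschitzOnWith.of_dist_le_mul ?_
    rintro _ ⟨y, hy, rfl⟩ _ ⟨z, hz, rfl⟩
    rw [hgπ y hy, hgπ z hz, dist_eq_norm, dist_eq_norm, Real.coe_toNNReal _ (by positivity)]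
    exact hkey y hy.1 z hz.1
  have himg : g '' (π '' (Γ ∩ ball x ρ)) = Γ ∩ ball x ρ := by
    rw [image_image]
    ext y
    constructor
    · rintro ⟨z, hz, rfl⟩
      simpa only [hgπ z hz] using hz
    · intro hy
      exact ⟨y, hy, hgπ y hy⟩
  have hsub : π '' (Γ ∩ ball x ρ) ⊆ (fun z => π x + z) '' disc e ρ := by
    rintro _ ⟨y, hy, rfl⟩
    refine ⟨π y - π x, ⟨?_, ?_⟩, by simp⟩
    · have h1 : π y - π x = (y - x) - inner ℝ (y - x) e • e := by
        simp only [hπ, inner_sub_left, sub_smul]; abel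
      have h2 : ‖π y - π x‖ ^ 2 ≤ ‖y - x‖ ^ 2 := by
        rw [h1, norm_sub_sq_real, inner_smul_right, norm_smul, he, mul_one, Real.norm_eq_abs,
          sq_abs]
        nlinarith [sq_nonneg (inner ℝ (y - x) e)]
      have h3 : ‖π y - π x‖ ≤ ‖y - x‖ := by
        exact abs_le_of_sq_le_sq' h2 (norm_nonneg _) |>.2
      have h4 : ‖y - x‖ < ρ := by simpa [dist_eq_norm] using hy.2
      linarith
    · simp only [hπ, inner_sub_left, inner_smul_left, hee, conj_trivial]; ring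
  calc (μHE[n] : Measure V) (Γ ∩ ball x ρ) = μHE[n] (g '' (π '' (Γ ∩ ball x ρ))) := by rw [himg]
    _ ≤ _ := HE_image_le n hlip
    _ ≤ ENNReal.ofReal ((1 - lam)⁻¹) ^ n * μHE[n] ((fun z => π x + z) '' disc e ρ) := by
      gcongr
      rfl
    _ = _ := by rw [HE_translate, HE_disc n e hρ]

/-- slicing the volume along a unit vector -/
lemma vol_eq_slices {n : ℕ} (hn : finrank ℝ V = n + 1) {ν : V} (hν : ‖ν‖ = 1) {t : Set V}
    (ht : MeasurableSet t) :
    volume t = ∫⁻ s : ℝ, (μHE[n] : Measure V) (t ∩ {z | inner ℝ z ν = s}) := by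
  have hν0 : ν ≠ 0 := by rintro rfl; simp at hν
  have hνν : inner ℝ ν ν = (1 : ℝ) := by rw [real_inner_self_eq_norm_sq, hν]; norm_num
  have h := EuclideanGeometry.euclideanHausdorffMeasure_eq_lintegral (0 : V) hν0 ht
  rw [InnerProductSpace.euclideanHausdorffMeasure_eq_volume, hn, Nat.add_sub_cancel,
    ← ofReal_norm, hν, ENNReal.ofReal_one, one_mul] at h
  rw [h]
  congr 1
  ext s
  congr 2
  ext z
  simp only [vadd_eq_add, add_zero, SetLike.mem_coe, AffineSubspace.mem_mk', vsub_eq_sub,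
    Submodule.mem_orthogonal_singleton_iff_inner_left, inner_sub_left, inner_smul_left, hνν,
    conj_trivial, mul_one, mem_ofPred_eq, sub_eq_zero]

lemma slab_lower {n : ℕ} (hn : finrank ℝ V = n + 1) {ν : V} (hν : ‖ν‖ = 1) {w : V}
    (hw : ‖w‖ ≤ 1) {R : ℝ} (hR : 1 < R) :
    ENNReal.ofReal (R - 1) ^ n * (μHE[n] : Measure V) (disc ν 1) * ‖inner ℝ w ν‖ₑ ≤
      volume {z : V | ‖z‖ < R ∧ inner ℝ z ν * inner ℝ (z + w) ν < 0} := by
  have hνν : inner ℝ ν ν = (1 : ℝ) := by rw [real_inner_self_eq_norm_sq, hν]; norm_num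
  have hmeas : MeasurableSet {z : V | ‖z‖ < R ∧ inner ℝ z ν * inner ℝ (z + w) ν < 0} := by
    have h1 : IsOpen {z : V | ‖z‖ < R} := isOpen_lt (by fun_prop) (by fun_prop)
    have h2 : IsOpen {z : V | inner ℝ z ν * inner ℝ (z + w) ν < 0} :=
      isOpen_lt (by fun_prop) (by fun_prop)
    exact (h1.inter h2).measurableSet
  rw [vol_eq_slices hn hν hmeas]
  set c : ℝ := inner ℝ w ν with hc
  have hc1 : |c| ≤ 1 := by
    have := abs_real_inner_le_norm w ν
    rw [hν, mul_one] at this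
    linarith
  have hvol : volume (uIoo 0 (-c)) = ‖c‖ₑ := by
    rw [Real.volume_uIoo, sub_zero, abs_neg, ← Real.norm_eq_abs, ofReal_norm]
  rw [← hvol, ← setLIntegral_const]
  refine le_trans (setLIntegral_mono' measurableSet_Ioo ?_) (setLIntegral_le_lintegral _ _)
  intro s hs
  have hs' : s * (s + c) < 0 ∧ |s| ≤ 1 := by
    rcases le_total 0 c with h | h
    · rw [uIoo_of_ge (by linarith)] at hs
      rw [abs_of_nonneg h] at hc1
      refine ⟨mul_neg_of_neg_of_pos hs.2 (by linarith [hs.1]), ?_⟩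
      rw [abs_le]; constructor <;> linarith [hs.1, hs.2]
    · rw [uIoo_of_le (by linarith)] at hs
      rw [abs_of_nonpos h] at hc1
      refine ⟨mul_neg_of_pos_of_neg hs.1 (by linarith [hs.2]), ?_⟩
      rw [abs_le]; constructor <;> linarith [hs.1, hs.2]
  rw [← HE_disc n ν (by linarith), ← HE_translate n (s • ν)]
  refine measure_mono ?_
  rintro _ ⟨y, ⟨hy1, hy2⟩, rfl⟩
  have h1 : inner ℝ (s • ν + y) ν = s := by
    rw [inner_add_left, inner_smul_left, hνν, hy2]; simp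
  refine ⟨⟨?_, ?_⟩, h1⟩
  · calc ‖s • ν + y‖ ≤ ‖s • ν‖ + ‖y‖ := norm_add_le _ _
      _ < R := by
        rw [norm_smul, hν, mul_one, Real.norm_eq_abs]; linarith [hs'.2]
  · rw [inner_add_left (s • ν + y), h1]; exact hs'.1

end Pool.Agent.Lib.MP_c377d9_an
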