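import Pool.Agent.Lib.MP_c377d9_an.Blowup

set_option linter.unusedSectionVars false

noncomputable section

namespace Pool.Agent.Lib.MP_c377d9_an

open MeasureTheory Filter Topology Set Metric Module
open scoped ENNReal NNReal Pointwise

variable {V F : Type*} [NormedAddCommGroup V] [InnerProductSpace ℝ V] [FiniteDimensional ℝ V]
  [MeasurableSpace V] [BorelSpace V] [NormedAddCommGroup F] [NormedSpace ℝ F]
  [MeasurableSpace F] [BorelSpace F] [SecondCountableTopology F]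

lemma le_of_forall_one_sub_pow {X L : ℝ≥0∞} (q : ℝ)
    (h : ∀ lam : ℝ, 0 < lam → lam < 1 → ENNReal.ofReal (1 - lam) ^ q * X ≤ L) : X ≤ L := by
  refine ENNReal.le_of_forall_lt_one_mul_le fun α hα => ?_
  have hcont : Tendsto (fun δ : ℝ => ENNReal.ofReal (1 - δ) ^ q) (𝓝[>] 0) (𝓝 1) := by
    have : Continuous (fun δ : ℝ => ENNReal.ofReal (1 - δ) ^ q) :=
      ENNReal.continuous_rpow_const.comp (ENNReal.continuous_ofReal.comp (by fun_prop))
    have h := (this.tendsto 0).mono_left (nhdsWithin_le_nhds (s := Ioi 0))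
    simpa using h
  obtain ⟨δ, h1, h2⟩ := ((hcont.eventually (lt_mem_nhds hα)).and
    (Ioo_mem_nhdsGT (show (0 : ℝ) < 1 by norm_num))).exists
  exact le_trans (by gcongr) (h δ h2.1 h2.2)

theorem jump_lower {n : ℕ} (hn : finrank ℝ V = n + 1) {u : V → F} (hu : Measurable u)
    (Φ : Measure V) [IsFiniteMeasure Φ] (hΦ : ∀ᵐ w ∂Φ, ‖w‖ ≤ 1) {q : ℝ} (hq : 1 ≤ q)
    {κ : ℝ≥0∞} (hκ : ∀ ν : V, ‖ν‖ = 1 → κ ≤ ∫⁻ w, ‖inner ℝ w ν‖ₑ ∂Φ) {up um : V → F}
    (hj : ∀ x ∈ jumpSet u, IsJump u x (up x) (um x)) :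
    κ * ∫⁻ x in jumpSet u, ‖up x - um x‖ₑ ^ q ∂μHE[n] ≤
      liminf (fun r => dirE Φ q u r / ENNReal.ofReal r) (𝓝[>] 0) := by
  have : Nontrivial V := Module.nontrivial_of_finrank_eq_succ hn
  obtain ⟨e0, he0⟩ := exists_norm_eq V (show (0 : ℝ) ≤ 1 by norm_num)
  obtain ⟨r, hr1, hr2⟩ := exists_seq_tendsto_liminf (f := 𝓝[>] (0 : ℝ))
    (u := fun r => dirE Φ q u r / ENNReal.ofReal r)
  set L := liminf (fun r => dirE Φ q u r / ENNReal.ofReal r) (𝓝[>] (0 : ℝ)) with hL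
  set ω := (μHE[n] : Measure V) (disc e0 1) with hω
  have hω0 : ω ≠ 0 := (HE_disc_pos hn he0).ne'
  have hωt : ω ≠ ∞ := (HE_disc_lt_top hn he0).ne
  refine le_of_forall_one_sub_pow ((2 * n : ℕ) : ℝ) fun lam hl0 hl1 => ?_
  rw [ENNReal.rpow_natCast]
  obtain ⟨A, hAm, hAc, hA⟩ := exists_exhaustion n hu hl0 hl1 he0
  have hJ : jumpSet u = ⋃ j, jumpSet u ∩ A j := by
    rw [← inter_iUnion, inter_eq_left.2 hAc]
  rw [hJ, setLIntegral_iUnion_of_directed _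
    (Monotone.directed_le fun j j' h => inter_subset_inter_right _ (hAm h)),
    ENNReal.mul_iSup, ENNReal.mul_iSup]
  refine iSup_le fun j => ?_
  obtain ⟨ρ0, hρ0, hρ⟩ := hA j
  set m := (μHE[n] : Measure V).restrict (jumpSet u ∩ A j) with hm
  have hmb : ∀ x, ∀ ρ ∈ Ioo (0 : ℝ) ρ0, m (ball x ρ) ≤
      ENNReal.ofReal ((1 - lam)⁻¹) ^ n * (ENNReal.ofReal ρ ^ n * ω) := by
    intro x ρ h
    rw [hm, Measure.restrict_apply measurableSet_ball]
    refine le_trans (measure_mono ?_) (hρ x ρ h)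
    exact fun y hy => ⟨hy.2.2, hy.1⟩
  have hfin : ∀ ρ : ℝ, ENNReal.ofReal ((1 - lam)⁻¹) ^ n * (ENNReal.ofReal ρ ^ n * ω) ≠ ∞ :=
    fun ρ => ENNReal.mul_ne_top (ENNReal.pow_ne_top ENNReal.ofReal_ne_top)
      (ENNReal.mul_ne_top (ENNReal.pow_ne_top ENNReal.ofReal_ne_top) hωt)
  have : IsLocallyFiniteMeasure m := ⟨fun x => ⟨ball x (ρ0 / 2), ball_mem_nhds _ (by linarith),
    (hmb x _ ⟨by linarith, by linarith⟩).trans_lt (hfin _).lt_top⟩⟩
  set R : ℝ := lam⁻¹ with hR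
  have hR1 : 1 < R := one_lt_inv₀ hl0 |>.2 hl1
  set G : V → ℝ≥0∞ := fun x => liminf (fun k => locE Φ q R u (r k) x) atTop with hG
  have hGm : Measurable G := Measurable.liminf fun k => measurable_locE Φ q R hu _
  set c : ℝ≥0∞ := ENNReal.ofReal (R - 1) ^ n * ω * κ with hc
  have hpt : ∀ x ∈ jumpSet u, ‖up x - um x‖ₑ ^ q * c ≤ G x := by
    intro x hx
    obtain ⟨-, ν, hν, h1, h2⟩ := hj x hx
    have := blowup hn hu Φ hΦ hq hν h1 h2 hR1
    rw [HE_disc_eq n (hν.trans he0.symm)] at this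
    refine le_trans ?_ (this.trans hr2.liminf_le_liminf_comp)
    rw [hc]
    gcongr
    exact hκ ν hν
  have h1 : (∫⁻ x, ‖up x - um x‖ₑ ^ q ∂m) * c ≤ ∫⁻ x, G x ∂m := by
    obtain ⟨g, hgm, hgle, hgeq⟩ := exists_measurable_le_lintegral_eq m
      fun x => ‖up x - um x‖ₑ ^ q
    rw [hgeq, ← lintegral_mul_const _ hgm]
    refine lintegral_mono_ae ?_
    rw [hm, ae_restrict_iff (measurableSet_le (by fun_prop) hGm)]
    refine Eventually.of_forall fun x hx => le_trans ?_ (hpt x hx.1)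
    gcongr
    exact hgle x
  have h2 : ∫⁻ x, G x ∂m ≤ ENNReal.ofReal ((1 - lam)⁻¹) ^ n * (ENNReal.ofReal R ^ n * ω) * L := by
    refine (lintegral_liminf_le fun k => measurable_locE Φ q R hu _).trans ?_
    rw [← (ENNReal.Tendsto.const_mul hr1 (Or.inr (hfin R))).liminf_eq]
    refine liminf_le_liminf ?_
    have h3 : ∀ᶠ s in 𝓝[>] (0 : ℝ), s ∈ Ioo 0 (ρ0 / R) := Ioo_mem_nhdsGT (by positivity)
    filter_upwards [hr2.eventually h3] with k hk
    have hk2 : r k * R < ρ0 := (lt_div_iff₀ (by linarith)).1 hk.2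
    refine (lint_locE_le m Φ q hu hk.1 (hfin _)
      (fun x => hmb x _ ⟨mul_pos hk.1 (by linarith), hk2⟩)).trans_eq ?_
    have h4 : ENNReal.ofReal (r k) ^ n * (ENNReal.ofReal (r k) ^ n)⁻¹ = 1 :=
      ENNReal.mul_inv_cancel (pow_ne_zero _ (by simpa using hk.1))
        (ENNReal.pow_ne_top ENNReal.ofReal_ne_top)
    rw [hn, pow_succ, ENNReal.mul_inv (Or.inl (pow_ne_zero _ (by simpa using hk.1)))
      (Or.inl (ENNReal.pow_ne_top ENNReal.ofReal_ne_top)), ENNReal.ofReal_mul hk.1.le, mul_pow,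
      Function.comp, div_eq_mul_inv]
    calc _ = (ENNReal.ofReal (r k) ^ n * (ENNReal.ofReal (r k) ^ n)⁻¹) *
        (ENNReal.ofReal ((1 - lam)⁻¹) ^ n * (ENNReal.ofReal R ^ n * ω) *
          (dirE Φ q u (r k) * (ENNReal.ofReal (r k))⁻¹)) := by ring
      _ = _ := by rw [h4, one_mul]
  have h3 := h1.trans h2
  have h5 : ENNReal.ofReal (R - 1) = ENNReal.ofReal (1 - lam) * ENNReal.ofReal R := by
    rw [← ENNReal.ofReal_mul (by linarith)]
    congr 1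
    rw [hR]; field_simp
  have h6 : ENNReal.ofReal (1 - lam) ^ n * ENNReal.ofReal ((1 - lam)⁻¹) ^ n = 1 := by
    rw [← mul_pow, ← ENNReal.ofReal_mul (by linarith), mul_inv_cancel₀ (by linarith)]; simp
  have h7 : ENNReal.ofReal R ^ n * ω ≠ 0 :=
    mul_ne_zero (pow_ne_zero _ (by simpa using (by linarith : 0 < R))) hω0
  have h8 : ENNReal.ofReal R ^ n * ω ≠ ∞ :=
    ENNReal.mul_ne_top (ENNReal.pow_ne_top ENNReal.ofReal_ne_top) hωt
  rw [← ENNReal.mul_le_mul_iff_right h7 h8]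
  calc _ = ENNReal.ofReal (1 - lam) ^ n * ((∫⁻ x, ‖up x - um x‖ₑ ^ q ∂m) * c) := by
        rw [hc, h5, mul_pow]; ring
    _ ≤ ENNReal.ofReal (1 - lam) ^ n *
        (ENNReal.ofReal ((1 - lam)⁻¹) ^ n * (ENNReal.ofReal R ^ n * ω) * L) := by gcongr
    _ = (ENNReal.ofReal (1 - lam) ^ n * ENNReal.ofReal ((1 - lam)⁻¹) ^ n) *
        (ENNReal.ofReal R ^ n * ω * L) := by ring
    _ = _ := by rw [h6, one_mul]

end Pool.Agent.Lib.MP_c377d9_an
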