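import Pool.Agent.Lib.MP_c377d9_an.Moll

set_option linter.unusedSectionVars false

noncomputable section

namespace Pool.Agent.Lib.MP_c377d9_an

open MeasureTheory Filter Topology Set Metric Module
open scoped ENNReal NNReal Pointwise

variable {V F : Type*} [NormedAddCommGroup V] [InnerProductSpace ℝ V] [FiniteDimensional ℝ V]
  [MeasurableSpace V] [BorelSpace V] [NormedAddCommGroup F] [NormedSpace ℝ F]
  [MeasurableSpace F] [BorelSpace F] [SecondCountableTopology F] [CompleteSpace F]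

lemma gagliardo_eq {v : V → F} (hv : Measurable v) (q : ℝ) :
    gagliardo q v = ∫⁻ h, (∫⁻ x, ‖v (x + h) - v x‖ₑ ^ q) * (‖h‖ₑ ^ (finrank ℝ V + 1))⁻¹ := by
  have h1 : ∀ x, ∫⁻ y, ‖v x - v y‖ₑ ^ q / ‖x - y‖ₑ ^ (finrank ℝ V + 1) =
      ∫⁻ h, ‖v (x + h) - v x‖ₑ ^ q * (‖h‖ₑ ^ (finrank ℝ V + 1))⁻¹ := by
    intro x
    rw [← lintegral_add_left_eq_self _ x]
    refine lintegral_congr fun h => ?_
    rw [sub_add_cancel_left, enorm_neg, enorm_sub_rev, div_eq_mul_inv]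
  unfold gagliardo
  simp_rw [h1]
  rw [lintegral_lintegral_swap (by unfold Function.uncurry; fun_prop)]
  refine lintegral_congr fun h => ?_
  rw [lintegral_mul_const _ (by fun_prop)]

lemma gagliardo_ge {n : ℕ} (hn : finrank ℝ V = n + 1) {v : V → F} (hv : Measurable v) (q : ℝ) :
    ∫⁻ r in Ioi (0 : ℝ), (ENNReal.ofReal r)⁻¹ *
      (dirE ((μHE[n] : Measure V).restrict (sphere 0 1)) q v r / ENNReal.ofReal r) ≤
        gagliardo q v := by
  have hm : Measurable fun h : V => ∫⁻ x, ‖v (x + h) - v x‖ₑ ^ q :=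
    Measurable.lintegral_prod_right' (f := fun p : V × V => ‖v (p.2 + p.1) - v p.2‖ₑ ^ q)
      (by fun_prop)
  rw [gagliardo_eq hv]
  refine le_trans (le_of_eq ?_) (polar_le hn (by fun_prop))
  refine setLIntegral_congr_fun measurableSet_Ioi fun r hr => ?_
  have hr' : (0 : ℝ) < r := hr
  have h0 : ENNReal.ofReal r ≠ 0 := by simpa using hr'
  have h1 : ∫⁻ z in sphere (0 : V) 1, (∫⁻ x, ‖v (x + r • z) - v x‖ₑ ^ q) *
      (‖r • z‖ₑ ^ (finrank ℝ V + 1))⁻¹ ∂μHE[n] = ∫⁻ z in sphere (0 : V) 1,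
        (∫⁻ x, ‖v (x + r • z) - v x‖ₑ ^ q) * (ENNReal.ofReal r ^ (n + 2))⁻¹ ∂μHE[n] := by
    refine setLIntegral_congr_fun isClosed_sphere.measurableSet fun z hz => ?_
    have hz' : ‖z‖ = 1 := by simpa using hz
    rw [← ofReal_norm, norm_smul, hz', mul_one, Real.norm_eq_abs, abs_of_pos hr', hn]
  rw [h1, lintegral_mul_const' _ _ (ENNReal.inv_ne_top.2 (pow_ne_zero _ h0)), dirE,
    ENNReal.ofReal_pow hr'.le, pow_add, ENNReal.mul_inv (Or.inl (pow_ne_zero _ h0))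
      (Or.inl (ENNReal.pow_ne_top ENNReal.ofReal_ne_top)), sq,
    ENNReal.mul_inv (Or.inl h0) (Or.inl ENNReal.ofReal_ne_top), div_eq_mul_inv]
  have h4 : ENNReal.ofReal r ^ n * (ENNReal.ofReal r ^ n)⁻¹ = 1 :=
    ENNReal.mul_inv_cancel (pow_ne_zero _ h0) (ENNReal.pow_ne_top ENNReal.ofReal_ne_top)
  symm
  calc _ = (ENNReal.ofReal r ^ n * (ENNReal.ofReal r ^ n)⁻¹) * ((ENNReal.ofReal r)⁻¹ *
      ((∫⁻ z in sphere (0 : V) 1, (∫⁻ x, ‖v (x + r • z) - v x‖ₑ ^ q) ∂μHE[n]) *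
        (ENNReal.ofReal r)⁻¹)) := by ring
    _ = _ := by rw [h4, one_mul]

lemma lint_inv {a b : ℝ} (ha : 0 < a) (hab : a ≤ b) :
    ∫⁻ r in Ioo a b, (ENNReal.ofReal r)⁻¹ = ENNReal.ofReal (Real.log (b / a)) := by
  have h1 : ∫⁻ r in Ioo a b, (ENNReal.ofReal r)⁻¹ = ∫⁻ r in Ioo a b, ENNReal.ofReal r⁻¹ :=
    setLIntegral_congr_fun measurableSet_Ioo fun r hr =>
      (ENNReal.ofReal_inv_of_pos (ha.trans hr.1)).symm
  have h2 : IntervalIntegrable (fun r : ℝ => r⁻¹) volume a b := by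
    refine intervalIntegral.intervalIntegrable_inv (fun x hx => ?_) continuousOn_id
    rw [uIcc_of_le hab] at hx
    exact (ha.trans_le hx.1).ne'
  rw [h1, Measure.restrict_congr_set Ioo_ae_eq_Ioc,
    ← ofReal_integral_eq_lintegral_ofReal h2.1, ← intervalIntegral.integral_of_le hab,
    integral_inv_of_pos ha (ha.trans_le hab)]
  filter_upwards [ae_restrict_mem measurableSet_Ioc] with y hy
  exact inv_nonneg.2 (ha.trans hy.1).le

lemma log_ratio_tendsto {c : ℝ} (hc : 0 < c) :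
    Tendsto (fun ε : ℝ => ENNReal.ofReal (Real.log (c / ε)) / ENNReal.ofReal |Real.log ε|)
      (𝓝[>] 0) (𝓝 1) := by
  have h1 : Tendsto (fun ε : ℝ => 1 - Real.log c / Real.log ε) (𝓝[>] 0) (𝓝 (1 - 0)) :=
    tendsto_const_nhds.sub (tendsto_const_nhds.div_atBot Real.tendsto_log_nhdsGT_zero)
  have h2 := ENNReal.tendsto_ofReal h1
  rw [sub_zero, ENNReal.ofReal_one] at h2
  refine h2.congr' ?_
  filter_upwards [Ioo_mem_nhdsGT (show (0 : ℝ) < 1 by norm_num)] with ε hε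
  have h3 : Real.log ε < 0 := Real.log_neg hε.1 hε.2
  rw [← ENNReal.ofReal_div_of_pos (abs_pos.2 h3.ne), abs_of_neg h3, Real.log_div hc.ne' hε.1.ne']
  congr 1
  field_simp [h3.ne]
  ring

theorem main_measurable {n : ℕ} (hn : finrank ℝ V = n + 1) {e : V} (he : ‖e‖ = 1)
    {η : V → ℝ} (hηm : Measurable η) (hη : Integrable η) {u : V → F}
    (hu : Measurable u) {q : ℝ} (hq : 1 ≤ q) (huq : ∫⁻ x, ‖u x‖ₑ ^ q ≠ ∞) {K : ℝ≥0∞} (hKt : K ≠ ∞)
    (hK : ∀ h, ∫⁻ x, ‖u (x + h) - u x‖ₑ ^ q ≤ K * ‖h‖ₑ) {up um : V → F}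
    (hj : ∀ x ∈ jumpSet u, IsJump u x (up x) (um x)) :
    ‖∫ z, η z‖ₑ ^ q * (∫⁻ z in sphere (0 : V) 1, ‖inner ℝ z e‖ₑ ∂μHE[n]) *
        ∫⁻ x in jumpSet u, ‖up x - um x‖ₑ ^ q ∂μHE[n] ≤
      liminf (fun ε => gagliardo q (mollify η u ε) / ENNReal.ofReal |Real.log ε|) (𝓝[>] 0) := by
  set Φ := (μHE[n] : Measure V).restrict (sphere 0 1) with hΦ
  have : IsFiniteMeasure Φ := sphere_finite hn
  have hΦ1 : ∀ᵐ w ∂Φ, ‖w‖ = 1 := by
    filter_upwards [ae_restrict_mem isClosed_sphere.measurableSet] with w hw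
    simpa using hw
  have hJ := jump_lower hn hu Φ (hΦ1.mono fun w hw => hw.le) hq
    (κ := ∫⁻ z, ‖inner ℝ z e‖ₑ ∂Φ) (fun ν hν => (kappa_eq n (he.trans hν.symm)).le) hj
  refine le_of_forall_one_sub_pow q fun θ h0 h1 => ?_
  set c := ENNReal.ofReal (1 - θ) ^ q * ‖∫ z, η z‖ₑ ^ q with hc
  have hct : c ≠ ∞ := ENNReal.mul_ne_top
    (ENNReal.rpow_ne_top_of_nonneg (by linarith) ENNReal.ofReal_ne_top)
    (ENNReal.rpow_ne_top_of_nonneg (by linarith) enorm_ne_top)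
  have hJ' : ENNReal.ofReal (1 - θ) ^ q * (‖∫ z, η z‖ₑ ^ q * (∫⁻ z, ‖inner ℝ z e‖ₑ ∂Φ) *
      ∫⁻ x in jumpSet u, ‖up x - um x‖ₑ ^ q ∂μHE[n]) ≤
      liminf (fun r => c * (dirE Φ q u r / ENNReal.ofReal r)) (𝓝[>] 0) := by
    rw [ENNReal.liminf_const_mul_of_ne_top hct]
    calc _ = c * ((∫⁻ z, ‖inner ℝ z e‖ₑ ∂Φ) * ∫⁻ x in jumpSet u, ‖up x - um x‖ₑ ^ q ∂μHE[n]) := by
          rw [hc]; ring
      _ ≤ _ := by gcongr
  refine le_trans hJ' (le_of_forall_lt_imp_le_of_dense fun T hT => ?_)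
  obtain ⟨δ, hδ, hδ'⟩ := mem_nhdsGT_iff_exists_Ioo_subset.1 (eventually_lt_of_lt_liminf hT)
  have hδ0 : (0 : ℝ) < δ := hδ
  refine ENNReal.le_of_forall_pos_le_add fun τ hτ _ => ?_
  obtain ⟨τ', hτ', hτ''⟩ := ENNReal.exists_nnreal_pos_mul_lt (measure_ne_top Φ univ)
    (b := τ) (by exact_mod_cast hτ.ne')
  obtain ⟨M, hM, hM'⟩ := moll_lower hηm hη hu hq huq hKt hK h0 h1 (τ := τ') (by exact_mod_cast hτ')
  rw [← tsub_le_iff_right]
  have hlim := ENNReal.Tendsto.const_mul (a := T - τ) (log_ratio_tendsto (div_pos hδ0 hM))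
    (Or.inl one_ne_zero)
  rw [mul_one] at hlim
  rw [← hlim.liminf_eq]
  refine liminf_le_liminf ?_
  filter_upwards [Ioo_mem_nhdsGT (div_pos hδ0 hM)] with ε hε
  have hε0 := hε.1
  have hε1 : M * ε ≤ δ := by have := (lt_div_iff₀ hM).1 hε.2; linarith
  have hm := measurable_mollify hηm hu ε
  rw [← mul_div_assoc]
  refine ENNReal.div_le_div_right ?_ _
  refine le_trans ?_ (gagliardo_ge hn hm q)
  rw [div_div, ← lint_inv (by positivity) hε1, ← lintegral_const_mul _ (by fun_prop)]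
  refine le_trans (setLIntegral_mono' measurableSet_Ioo fun r hr => ?_)
    (lintegral_mono_set fun r hr => lt_trans (by positivity) hr.1)
  have hr0 : 0 < r := lt_trans (by positivity) hr.1
  have hr0' : ENNReal.ofReal r ≠ 0 := by simpa using hr0
  rw [mul_comm]
  refine mul_le_mul_right ?_ _
  rw [tsub_le_iff_right]
  refine (hδ' ⟨hr0, hr.2⟩).out.le.trans ?_
  rw [← mul_div_assoc, ENNReal.div_le_iff hr0' ENNReal.ofReal_ne_top, add_mul,
    ENNReal.div_mul_cancel hr0' ENNReal.ofReal_ne_top]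
  calc c * dirE Φ q u r = ∫⁻ w, c * (∫⁻ x, ‖u (x + r • w) - u x‖ₑ ^ q) ∂Φ := by
        rw [lintegral_const_mul' _ _ hct, dirE]
    _ ≤ ∫⁻ w, ((∫⁻ x, ‖mollify η u ε (x + r • w) - mollify η u ε x‖ₑ ^ q) +
        τ' * ENNReal.ofReal r) ∂Φ := by
        refine lintegral_mono_ae ?_
        filter_upwards [hΦ1] with w hw
        have h2 : ‖r • w‖ = r := by rw [norm_smul, hw, mul_one, Real.norm_eq_abs, abs_of_pos hr0]
        have := hM' ε hε0 (r • w) (by rw [h2]; exact hr.1.le)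
        rwa [← ofReal_norm (r • w), h2] at this
    _ = dirE Φ q (mollify η u ε) r + τ' * Φ univ * ENNReal.ofReal r := by
        rw [lintegral_add_right _ measurable_const, lintegral_const, dirE]; ring
    _ ≤ _ := by gcongr

omit [MeasurableSpace F] [BorelSpace F] in
lemma isJump_congr {u v : V → F} (h : u =ᵐ[volume] v) (x : V) (a b : F) :
    IsJump u x a b ↔ IsJump v x a b := by
  have key : ∀ ν c, HalfLimit u x ν c ↔ HalfLimit v x ν c := by
    intro ν c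
    unfold HalfLimit
    refine tendsto_congr fun r => ?_
    congr 1
    refine lintegral_congr_ae (ae_restrict_of_ae ?_)
    filter_upwards [h] with y hy
    rw [hy]
  simp only [IsJump, key]

omit [MeasurableSpace F] [BorelSpace F] in
theorem main {n : ℕ} (hn : finrank ℝ V = n + 1) {e : V} (he : ‖e‖ = 1)
    {η : V → ℝ} (hη : Integrable η) {u : V → F} {q : ℝ} (hq : 1 ≤ q) (hu : MemBesov q u)
    {up um : V → F} (hj : ∀ x ∈ jumpSet u, IsJump u x (up x) (um x)) :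
    ‖∫ z, η z‖ₑ ^ q * (∫⁻ z in sphere (0 : V) 1, ‖inner ℝ z e‖ₑ ∂μHE[n]) *
        ∫⁻ x in jumpSet u, ‖up x - um x‖ₑ ^ q ∂μHE[n] ≤
      liminf (fun ε => gagliardo q (mollify η u ε) / ENNReal.ofReal |Real.log ε|) (𝓝[>] 0) := by
  borelize F
  have hq0 : 0 < q := by linarith
  set v := hu.1.1.mk u with hv
  have huv : u =ᵐ[volume] v := hu.1.1.ae_eq_mk
  have hvm : Measurable v := hu.1.1.stronglyMeasurable_mk.measurable
  set ξ := hη.1.mk η with hξ
  have hηξ : η =ᵐ[volume] ξ := hη.1.ae_eq_mk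
  have hξm : Measurable ξ := hη.1.stronglyMeasurable_mk.measurable
  have hJ : jumpSet u = jumpSet v := by
    ext x
    simp only [jumpSet, mem_ofPred_eq, isJump_congr huv]
  have hvq : ∫⁻ x, ‖v x‖ₑ ^ q ≠ ∞ := by
    have := lintegral_rpow_enorm_lt_top_of_eLpNorm_lt_top (by simpa using hq0)
      ENNReal.ofReal_ne_top (hu.1.ae_eq huv).2
    rw [ENNReal.toReal_ofReal hq0.le] at this
    exact this.ne
  have hK : ∀ h, ∫⁻ x, ‖v (x + h) - v x‖ₑ ^ q ≤
      (⨆ (h : V) (_ : h ≠ 0), ∫⁻ x, ‖u (x + h) - u x‖ₑ ^ q / ‖h‖ₑ) * ‖h‖ₑ := by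
    intro h
    rcases eq_or_ne h 0 with rfl | hh
    · simp [ENNReal.zero_rpow_of_pos hq0]
    have h0 : ‖h‖ₑ ≠ 0 := by simpa using hh
    rw [← ENNReal.div_le_iff h0 enorm_ne_top]
    refine le_trans (le_of_eq ?_) (le_iSup₂ (f := fun (h : V) (_ : h ≠ 0) =>
      ∫⁻ x, ‖u (x + h) - u x‖ₑ ^ q / ‖h‖ₑ) h hh)
    rw [div_eq_mul_inv, ← lintegral_mul_const' _ _ (ENNReal.inv_ne_top.2 h0)]
    refine lintegral_congr_ae ?_
    filter_upwards [huv,
      (measurePreserving_add_right (volume : Measure V) h).quasiMeasurePreserving.ae huv]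
      with x h1 h2
    rw [h1, h2, div_eq_mul_inv]
  have hmain := main_measurable hn he hξm (hη.congr hηξ) hvm hq hvq hu.2.ne hK (up := up) (um := um)
    (fun x hx => (isJump_congr huv _ _ _).1 (hj x (hJ ▸ hx)))
  rw [← hJ, ← integral_congr_ae hηξ] at hmain
  refine hmain.trans_eq (liminf_congr ?_)
  filter_upwards [self_mem_nhdsWithin] with ε hε
  have hε0 : ε ≠ 0 := ne_of_gt hε
  congr 2
  funext x
  refine integral_congr_ae ?_
  have h1 : Measure.QuasiMeasurePreserving (fun z : V => x - ε • z) volume volume :=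
    (Measure.measurePreserving_sub_left volume x).quasiMeasurePreserving.comp
      (Measure.quasiMeasurePreserving_smul volume hε0)
  filter_upwards [hηξ, h1.ae huv] with z k1 k2
  rw [k1, k2]

end Pool.Agent.Lib.MP_c377d9_an
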