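import Pool.Agent.Lib.MP_c377d9_an.Jump

set_option linter.unusedSectionVars false

noncomputable section

namespace Pool.Agent.Lib.MP_c377d9_an

open MeasureTheory Filter Topology Set Metric Module
open scoped ENNReal NNReal Pointwise

variable {V F : Type*} [NormedAddCommGroup V] [InnerProductSpace ℝ V] [FiniteDimensional ℝ V]
  [MeasurableSpace V] [BorelSpace V] [NormedAddCommGroup F] [NormedSpace ℝ F]
  [MeasurableSpace F] [BorelSpace F] [SecondCountableTopology F] [CompleteSpace F]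

lemma holder_weight {α : Type*} [MeasurableSpace α] {μ : Measure α} {w G : α → ℝ≥0∞}
    (hw : Measurable w) (hG : Measurable G) {q : ℝ} (hq : 1 ≤ q) :
    (∫⁻ z, w z * G z ∂μ) ^ q ≤ (∫⁻ z, w z ∂μ) ^ (q - 1) * ∫⁻ z, w z * G z ^ q ∂μ := by
  have hq0 : 0 < q := by linarith
  have h1 : 0 ≤ 1 - q⁻¹ := by have := inv_le_one_of_one_le₀ hq; linarith
  have h := ENNReal.lintegral_mul_norm_pow_le (μ := μ) (f := w) (g := fun z => w z * G z ^ q)
    hw.aemeasurable (by fun_prop) h1 (q := q⁻¹) (by positivity) (by ring)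
  have h2 : ∀ z, w z ^ (1 - q⁻¹) * (w z * G z ^ q) ^ q⁻¹ = w z * G z := by
    intro z
    rw [ENNReal.mul_rpow_of_nonneg _ _ (by positivity), ← mul_assoc,
      ← ENNReal.rpow_add_of_nonneg _ _ h1 (by positivity), sub_add_cancel, ENNReal.rpow_one,
      ← ENNReal.rpow_mul, mul_inv_cancel₀ hq0.ne', ENNReal.rpow_one]
  simp_rw [h2] at h
  refine (ENNReal.rpow_le_rpow h hq0.le).trans_eq ?_
  rw [ENNReal.mul_rpow_of_nonneg _ _ hq0.le, ← ENNReal.rpow_mul, ← ENNReal.rpow_mul,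
    inv_mul_cancel₀ hq0.ne', ENNReal.rpow_one]
  congr 2
  field_simp

lemma young_weight {w : V → ℝ≥0∞} {G : V → V → ℝ≥0∞} (hw : Measurable w)
    (hG : Measurable (Function.uncurry G)) {q : ℝ} (hq : 1 ≤ q) (hwt : ∫⁻ z, w z ≠ ∞) :
    ∫⁻ x, (∫⁻ z, w z * G x z) ^ q ≤ (∫⁻ z, w z) ^ (q - 1) * ∫⁻ z, w z * ∫⁻ x, G x z ^ q := by
  calc _ ≤ ∫⁻ x, (∫⁻ z, w z) ^ (q - 1) * ∫⁻ z, w z * G x z ^ q :=
        lintegral_mono fun x => holder_weight hw (hG.comp measurable_prodMk_left) hq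
    _ = _ := by
        rw [lintegral_const_mul' _ _ (ENNReal.rpow_ne_top_of_nonneg (by linarith) hwt),
          lintegral_lintegral_swap (f := fun x z => w z * G x z ^ q)
            ((hw.comp measurable_snd).mul (hG.pow_const q)).aemeasurable]
        congr 1
        refine lintegral_congr fun z => ?_
        exact lintegral_const_mul _ ((hG.comp measurable_prodMk_right).pow_const q)

lemma ae_integrable_moll {η : V → ℝ} (hηm : Measurable η) (hη : Integrable η) {u : V → F}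
    (hu : Measurable u) {q : ℝ} (hq : 1 ≤ q) (huq : ∫⁻ x, ‖u x‖ₑ ^ q ≠ ∞) (ε : ℝ) :
    ∀ᵐ x, Integrable fun z => η z • u (x - ε • z) := by
  have h := young_weight (w := fun z => ‖η z‖ₑ) (G := fun x z => ‖u (x - ε • z)‖ₑ)
    (by fun_prop) (by unfold Function.uncurry; fun_prop) hq hη.2.ne
  have h1 : ∀ z, ∫⁻ x, ‖u (x - ε • z)‖ₑ ^ q = ∫⁻ x, ‖u x‖ₑ ^ q := fun z =>
    lintegral_sub_right_eq_self (fun x => ‖u x‖ₑ ^ q) _
  simp_rw [h1] at h
  rw [lintegral_mul_const _ (by fun_prop)] at h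
  have h2 := h.trans_lt (ENNReal.mul_lt_top
    (ENNReal.rpow_lt_top_of_nonneg (by linarith) hη.2.ne) (ENNReal.mul_lt_top hη.2 huq.lt_top))
  have h3 := ae_lt_top (Measurable.pow_const (Measurable.lintegral_prod_right'
    (f := fun p : V × V => ‖η p.2‖ₑ * ‖u (p.1 - ε • p.2)‖ₑ) (by fun_prop)) q) h2.ne
  filter_upwards [h3] with x hx
  refine ⟨Measurable.aestronglyMeasurable (by fun_prop), ?_⟩
  rw [hasFiniteIntegral_iff_enorm]
  simp_rw [enorm_smul]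
  exact (ENNReal.rpow_lt_top_iff_of_pos (by linarith)).1 hx

lemma second_diff {u : V → F} (hu : Measurable u) {q : ℝ} (hq : 1 ≤ q) {K : ℝ≥0∞}
    (hK : ∀ h, ∫⁻ x, ‖u (x + h) - u x‖ₑ ^ q ≤ K * ‖h‖ₑ) (h y : V) :
    ∫⁻ x, ‖(u (x + h - y) - u (x - y)) - (u (x + h) - u x)‖ₑ ^ q ≤
      2 ^ (q - 1) * (2 * K) * min ‖h‖ₑ ‖y‖ₑ := by
  have key : ∀ A B : V → F, Measurable A → ∀ c : ℝ≥0∞, ∫⁻ x, ‖A x‖ₑ ^ q ≤ K * c →
      ∫⁻ x, ‖B x‖ₑ ^ q ≤ K * c → ∫⁻ x, ‖A x - B x‖ₑ ^ q ≤ 2 ^ (q - 1) * (2 * K) * c := by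
    intro A B hA c h1 h2
    calc _ ≤ ∫⁻ x, 2 ^ (q - 1) * (‖A x‖ₑ ^ q + ‖B x‖ₑ ^ q) := by
          refine lintegral_mono fun x => ?_
          exact (ENNReal.rpow_le_rpow enorm_sub_le (by linarith)).trans
            (ENNReal.rpow_add_le_mul_rpow_add_rpow _ _ hq)
      _ = 2 ^ (q - 1) * ((∫⁻ x, ‖A x‖ₑ ^ q) + ∫⁻ x, ‖B x‖ₑ ^ q) := by
          rw [lintegral_const_mul' _ _ (ENNReal.rpow_ne_top_of_nonneg (by linarith) (by simp)),
            lintegral_add_left (by fun_prop)]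
      _ ≤ 2 ^ (q - 1) * (K * c + K * c) := by gcongr
      _ = _ := by ring
  rcases le_total ‖h‖ₑ ‖y‖ₑ with hle | hle
  · rw [min_eq_left hle]
    refine key _ _ (by fun_prop) _ ?_ (hK h)
    rw [← lintegral_add_right_eq_self _ y]
    simpa [add_right_comm _ y h] using hK h
  · rw [min_eq_right hle]
    have e : ∀ x, (u (x + h - y) - u (x - y)) - (u (x + h) - u x) =
        (u (x + h - y) - u (x + h)) - (u (x - y) - u x) := fun x => by abel
    simp_rw [e]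
    have h0 := hK (-y)
    simp only [← sub_eq_add_neg, enorm_neg] at h0
    refine key _ _ (by fun_prop) _ ?_ h0
    exact (lintegral_add_right_eq_self (fun x => ‖u (x - y) - u x‖ₑ ^ q) h).trans_le h0

/-- the tail quantity -/
def tail (η : V → ℝ) (M : ℝ) : ℝ≥0∞ := ∫⁻ z, ‖η z‖ₑ * min 1 (ENNReal.ofReal (‖z‖ / M))

lemma tail_tendsto {η : V → ℝ} (hηm : Measurable η) (hη : Integrable η) :
    Tendsto (tail η) atTop (𝓝 0) := by
  have := tendsto_lintegral_filter_of_dominated_convergence (μ := (volume : Measure V))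
    (l := atTop) (F := fun (M : ℝ) z => ‖η z‖ₑ * min 1 (ENNReal.ofReal (‖z‖ / M)))
    (f := fun _ => 0) (fun z => ‖η z‖ₑ) (Eventually.of_forall fun M => by fun_prop)
    (Eventually.of_forall fun M => Eventually.of_forall fun z =>
      mul_le_of_le_one_right' (min_le_left _ _)) hη.2.ne ?_
  · rw [lintegral_zero] at this
    exact this
  · refine Eventually.of_forall fun z => ?_
    have h1 : Tendsto (fun M : ℝ => ‖z‖ / M) atTop (𝓝 0) := tendsto_const_nhds.div_atTop tendsto_id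
    have h2 := (tendsto_const_nhds (x := (1 : ℝ≥0∞))).min (ENNReal.tendsto_ofReal h1)
    have h3 := ENNReal.Tendsto.const_mul (a := ‖η z‖ₑ) h2 (Or.inr enorm_ne_top)
    simpa using h3

lemma measurable_mollify {η : V → ℝ} (hηm : Measurable η) {u : V → F} (hu : Measurable u)
    (ε : ℝ) : Measurable (mollify η u ε) := by
  refine StronglyMeasurable.measurable ?_
  refine StronglyMeasurable.integral_prod_right' (f := fun p : V × V => η p.2 • u (p.1 - ε • p.2))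
    (Measurable.stronglyMeasurable ?_)
  fun_prop

lemma moll_diff {η : V → ℝ} (hηm : Measurable η) (hη : Integrable η) {u : V → F}
    (hu : Measurable u) {q : ℝ} (hq : 1 ≤ q) (huq : ∫⁻ x, ‖u x‖ₑ ^ q ≠ ∞) {K : ℝ≥0∞}
    (hK : ∀ h, ∫⁻ x, ‖u (x + h) - u x‖ₑ ^ q ≤ K * ‖h‖ₑ) {ε M : ℝ} (hε : 0 < ε) (hM : 0 < M)
    {h : V} (hh : M * ε ≤ ‖h‖) :
    ∫⁻ x, ‖(mollify η u ε (x + h) - mollify η u ε x) - (∫ z, η z) • (u (x + h) - u x)‖ₑ ^ q ≤
      (∫⁻ z, ‖η z‖ₑ) ^ (q - 1) * (2 ^ (q - 1) * (2 * K)) * tail η M * ‖h‖ₑ := by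
  have hae := ae_integrable_moll hηm hη hu hq huq ε
  have hae' := (measurePreserving_add_right (volume : Measure V) h).quasiMeasurePreserving.ae hae
  have hy := young_weight (w := fun z => ‖η z‖ₑ)
    (G := fun x z => ‖(u (x + h - ε • z) - u (x - ε • z)) - (u (x + h) - u x)‖ₑ)
    (by fun_prop) (by unfold Function.uncurry; fun_prop) hq hη.2.ne
  refine le_trans (lintegral_mono_ae ?_) (hy.trans ?_)
  · filter_upwards [hae, hae'] with x h1 h2
    refine ENNReal.rpow_le_rpow ?_ (by linarith)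
    rw [mollify, mollify, ← integral_sub h2 h1, ← integral_smul_const,
      ← integral_sub (h2.sub' h1) (hη.smul_const _)]
    refine (enorm_integral_le_lintegral_enorm _).trans_eq (lintegral_congr fun z => ?_)
    rw [← enorm_smul]
    simp only [smul_sub]
  · rw [mul_assoc, mul_assoc]
    gcongr
    rw [tail, ← lintegral_mul_const _ (by fun_prop), ← lintegral_const_mul _ (by fun_prop)]
    refine lintegral_mono fun z => ?_
    have h1 : min ‖h‖ₑ ‖ε • z‖ₑ ≤ min 1 (ENNReal.ofReal (‖z‖ / M)) * ‖h‖ₑ := by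
      rw [min_mul, one_mul]
      refine min_le_min le_rfl ?_
      rw [← ofReal_norm, ← ofReal_norm, ← ENNReal.ofReal_mul (by positivity), norm_smul,
        Real.norm_eq_abs, abs_of_pos hε]
      refine ENNReal.ofReal_le_ofReal ?_
      rw [div_mul_eq_mul_div, le_div_iff₀ hM]
      nlinarith [norm_nonneg z]
    calc _ ≤ ‖η z‖ₑ * (2 ^ (q - 1) * (2 * K) * min ‖h‖ₑ ‖ε • z‖ₑ) := by
          gcongr
          exact second_diff hu hq hK h _
      _ ≤ ‖η z‖ₑ * (2 ^ (q - 1) * (2 * K) * (min 1 (ENNReal.ofReal (‖z‖ / M)) * ‖h‖ₑ)) := by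
          gcongr
      _ = _ := by ring

lemma split_ineq {X Y : F} {q θ : ℝ} (hq : 0 ≤ q) (h0 : 0 < θ) (h1 : θ < 1) :
    ENNReal.ofReal (1 - θ) ^ q * ‖X‖ₑ ^ q ≤
      ‖Y‖ₑ ^ q + ENNReal.ofReal θ⁻¹ ^ q * ‖Y - X‖ₑ ^ q := by
  rw [← ENNReal.mul_rpow_of_nonneg _ _ hq, ← ENNReal.mul_rpow_of_nonneg _ _ hq,
    ← ofReal_norm, ← ofReal_norm, ← ofReal_norm, ← ENNReal.ofReal_mul (by linarith),
    ← ENNReal.ofReal_mul (by positivity)]
  rcases le_total ‖Y - X‖ (θ * ‖X‖) with h | h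
  · refine le_trans (ENNReal.rpow_le_rpow (ENNReal.ofReal_le_ofReal ?_) hq) le_self_add
    have : ‖X‖ ≤ ‖Y‖ + ‖Y - X‖ := by
      calc ‖X‖ = ‖Y - (Y - X)‖ := by congr 1; abel
        _ ≤ _ := norm_sub_le _ _
    linarith
  · refine le_trans (ENNReal.rpow_le_rpow (ENNReal.ofReal_le_ofReal ?_) hq) le_add_self
    rw [le_inv_mul_iff₀ h0]
    nlinarith [norm_nonneg X, mul_nonneg h0.le (mul_nonneg h0.le (norm_nonneg X))]

lemma moll_lower {η : V → ℝ} (hηm : Measurable η) (hη : Integrable η) {u : V → F}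
    (hu : Measurable u) {q : ℝ} (hq : 1 ≤ q) (huq : ∫⁻ x, ‖u x‖ₑ ^ q ≠ ∞) {K : ℝ≥0∞} (hKt : K ≠ ∞)
    (hK : ∀ h, ∫⁻ x, ‖u (x + h) - u x‖ₑ ^ q ≤ K * ‖h‖ₑ) {θ : ℝ} (h0 : 0 < θ) (h1 : θ < 1)
    {τ : ℝ≥0∞} (hτ : 0 < τ) :
    ∃ M : ℝ, 0 < M ∧ ∀ ε : ℝ, 0 < ε → ∀ h : V, M * ε ≤ ‖h‖ →
      ENNReal.ofReal (1 - θ) ^ q * ‖∫ z, η z‖ₑ ^ q * ∫⁻ x, ‖u (x + h) - u x‖ₑ ^ q ≤
        (∫⁻ x, ‖mollify η u ε (x + h) - mollify η u ε x‖ₑ ^ q) + τ * ‖h‖ₑ := by
  set C := ENNReal.ofReal θ⁻¹ ^ q * ((∫⁻ z, ‖η z‖ₑ) ^ (q - 1) * (2 ^ (q - 1) * (2 * K))) with hC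
  have hθt : ENNReal.ofReal θ⁻¹ ^ q ≠ ∞ :=
    ENNReal.rpow_ne_top_of_nonneg (by linarith) ENNReal.ofReal_ne_top
  have hCt : C ≠ ∞ := ENNReal.mul_ne_top hθt
    (ENNReal.mul_ne_top (ENNReal.rpow_ne_top_of_nonneg (by linarith) hη.2.ne)
      (ENNReal.mul_ne_top (ENNReal.rpow_ne_top_of_nonneg (by linarith) (by simp))
        (ENNReal.mul_ne_top (by simp) hKt)))
  have ht := ENNReal.Tendsto.const_mul (a := C) (tail_tendsto hηm hη) (Or.inr hCt)
  rw [mul_zero] at ht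
  obtain ⟨M, hM1, hM2⟩ := ((ht.eventually (gt_mem_nhds hτ)).and (eventually_gt_atTop 0)).exists
  refine ⟨M, hM2, fun ε hε h hh => ?_⟩
  have hm := measurable_mollify hηm hu ε
  calc _ = ∫⁻ x, ENNReal.ofReal (1 - θ) ^ q * ‖(∫ z, η z) • (u (x + h) - u x)‖ₑ ^ q := by
        rw [← lintegral_const_mul _ (by fun_prop)]
        refine lintegral_congr fun x => ?_
        rw [enorm_smul, ENNReal.mul_rpow_of_nonneg _ _ (by linarith), mul_assoc]
    _ ≤ ∫⁻ x, ‖mollify η u ε (x + h) - mollify η u ε x‖ₑ ^ q + ENNReal.ofReal θ⁻¹ ^ q *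
        ‖(mollify η u ε (x + h) - mollify η u ε x) - (∫ z, η z) • (u (x + h) - u x)‖ₑ ^ q :=
        lintegral_mono fun x => split_ineq (by linarith) h0 h1
    _ ≤ _ := by
        rw [lintegral_add_left (by fun_prop), lintegral_const_mul' _ _ hθt]
        refine add_le_add le_rfl ?_
        calc _ ≤ ENNReal.ofReal θ⁻¹ ^ q * ((∫⁻ z, ‖η z‖ₑ) ^ (q - 1) * (2 ^ (q - 1) * (2 * K)) *
              tail η M * ‖h‖ₑ) := by
              gcongr
              exact moll_diff hηm hη hu hq huq hK hε hM2 hh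
          _ = C * tail η M * ‖h‖ₑ := by rw [hC]; ring
          _ ≤ _ := by gcongr

end Pool.Agent.Lib.MP_c377d9_an
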