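import Pool.Agent.Lib.MP_c377d9_an.Geom

set_option linter.unusedSectionVars false

noncomputable section

namespace Pool.Agent.Lib.MP_c377d9_an

open MeasureTheory Filter Topology Set Metric Module
open scoped ENNReal NNReal Pointwise

variable {V : Type*} [NormedAddCommGroup V] [InnerProductSpace ℝ V] [FiniteDimensional ℝ V]
  [MeasurableSpace V] [BorelSpace V]

lemma norm_sub_le_of_unit {a b : V} (ha : ‖a‖ = 1) (hb : ‖b‖ = 1) {α β : ℝ} (hα : 1 ≤ α)
    (hβ : 1 ≤ β) : ‖a - b‖ ≤ ‖α • a - β • b‖ := by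
  have h1 : inner ℝ a b ≤ (1 : ℝ) := by
    have := real_inner_le_norm a b
    rwa [ha, hb, mul_one] at this
  have h2 : ‖a - b‖ ^ 2 ≤ ‖α • a - β • b‖ ^ 2 := by
    rw [norm_sub_sq_real, norm_sub_sq_real, norm_smul, norm_smul, ha, hb, inner_smul_left,
      inner_smul_right, Real.norm_eq_abs, Real.norm_eq_abs, mul_one, mul_one, sq_abs, sq_abs]
    simp only [conj_trivial]
    have h3 : 0 ≤ (α * β - 1) * (1 - inner ℝ a b) :=
      mul_nonneg (by nlinarith) (by linarith)
    nlinarith [sq_nonneg (α - β)]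
  exact abs_le_of_sq_le_sq' h2 (norm_nonneg _) |>.2

lemma cap_le {n : ℕ} (hn : finrank ℝ V = n + 1) {e : V} (he : ‖e‖ = 1) {δ : ℝ}
    (hδ1 : δ < 1) {B : Set V} (hB : B ⊆ sphere 0 1 ∩ ball e δ) :
    ENNReal.ofReal ((1 - δ) ^ (n + 1)) * (μHE[n] : Measure V) B ≤
      (n + 1 : ℕ) * volume (Ioo (0 : ℝ) 1 • B) := by
  have hee : inner ℝ e e = (1 : ℝ) := by rw [real_inner_self_eq_norm_sq, he]; norm_num
  have hc : 0 < 1 - δ := by linarith
  have hin : ∀ a ∈ B, 1 - δ < inner ℝ a e ∧ inner ℝ a e ≤ (1 : ℝ) ∧ ‖a‖ = 1 := by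
    intro a ha
    have ha1 : ‖a‖ = 1 := by simpa using (hB ha).1
    have ha2 : ‖a - e‖ < δ := by simpa [dist_eq_norm] using (hB ha).2
    refine ⟨?_, ?_, ha1⟩
    · have h1 := abs_real_inner_le_norm (a - e) e
      rw [inner_sub_left, hee, he, mul_one] at h1
      have := (abs_le.1 h1).1
      linarith
    · have := real_inner_le_norm a e
      rwa [ha1, he, mul_one] at this
  set P : V → V := fun a => (inner ℝ a e : ℝ)⁻¹ • a with hP
  set g : V → V := fun p => ‖p‖⁻¹ • p with hg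
  have hgP : ∀ a ∈ B, g (P a) = a := by
    intro a ha
    obtain ⟨h1, h2, h3⟩ := hin a ha
    have h4 : (0 : ℝ) < inner ℝ a e := by linarith
    simp only [hg, hP, norm_smul, h3, mul_one, norm_inv, inv_inv, Real.norm_eq_abs,
      abs_of_pos h4, smul_smul, mul_inv_cancel₀ h4.ne', one_smul]
  have hlip : LipschitzOnWith 1 g (P '' B) := by
    refine LipschitzOnWith.of_dist_le_mul ?_
    rintro _ ⟨a, ha, rfl⟩ _ ⟨b, hb, rfl⟩
    rw [hgP a ha, hgP b hb, dist_eq_norm, dist_eq_norm, NNReal.coe_one, one_mul]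
    obtain ⟨h1, h2, h3⟩ := hin a ha
    obtain ⟨h1', h2', h3'⟩ := hin b hb
    exact norm_sub_le_of_unit h3 h3' (one_le_inv₀ (by linarith) |>.2 h2)
      (one_le_inv₀ (by linarith) |>.2 h2')
  have h1 : (μHE[n] : Measure V) B ≤ μHE[n] (P '' B) := by
    have := HE_image_le n hlip
    rw [ENNReal.coe_one, one_pow, one_mul] at this
    refine le_trans (measure_mono ?_) this
    intro a ha
    exact ⟨P a, ⟨a, ha, rfl⟩, hgP a ha⟩
  have h2 : ∫⁻ s in Ioo (0 : ℝ) (1 - δ), ENNReal.ofReal (s ^ n) * (μHE[n] : Measure V) (P '' B) ≤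
      volume (Ioo (0 : ℝ) 1 • B) := by
    rw [← measure_toMeasurable (Ioo (0 : ℝ) 1 • B),
      vol_eq_slices hn he (measurableSet_toMeasurable _ _)]
    refine le_trans (setLIntegral_mono' measurableSet_Ioo ?_) (setLIntegral_le_lintegral _ _)
    intro s hs
    rw [ENNReal.ofReal_pow hs.1.le, ← HE_smul n hs.1]
    refine measure_mono ?_
    rintro _ ⟨_, ⟨a, ha, rfl⟩, rfl⟩
    obtain ⟨h1, h2, h3⟩ := hin a ha
    have h4 : (0 : ℝ) < inner ℝ a e := by linarith
    refine ⟨subset_toMeasurable _ _ ?_, ?_⟩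
    · refine ⟨s * (inner ℝ a e : ℝ)⁻¹, ⟨by have := hs.1; positivity, ?_⟩, a, ha, ?_⟩
      · rw [mul_inv_lt_iff₀ h4]; linarith [hs.2]
      · simp only [hP, smul_smul]
    · simp only [hP, mem_ofPred_eq, inner_smul_left, conj_trivial]
      field_simp
  have h3 : ∫⁻ s in Ioo (0 : ℝ) (1 - δ), ENNReal.ofReal (s ^ n) =
      ENNReal.ofReal ((1 - δ) ^ (n + 1) / (n + 1)) := by
    rw [Measure.restrict_congr_set Ioo_ae_eq_Ioc,
      ← ofReal_integral_eq_lintegral_ofReal (intervalIntegral.intervalIntegrable_pow _).1,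
      ← intervalIntegral.integral_of_le hc.le]
    · simp
    · filter_upwards [ae_restrict_mem measurableSet_Ioc] with y hy
      exact pow_nonneg hy.1.le _
  rw [lintegral_mul_const _ (by fun_prop), h3] at h2
  calc _ ≤ ENNReal.ofReal ((1 - δ) ^ (n + 1)) * (μHE[n] : Measure V) (P '' B) := by gcongr
    _ = (n + 1 : ℕ) * (ENNReal.ofReal ((1 - δ) ^ (n + 1) / (n + 1)) * μHE[n] (P '' B)) := by
      rw [← mul_assoc, ← ENNReal.ofReal_natCast, ← ENNReal.ofReal_mul (by positivity)]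
      congr 2
      push_cast
      field_simp
    _ ≤ _ := by gcongr

lemma sphere_le {n : ℕ} (hn : finrank ℝ V = n + 1) :
    (μHE[n] : Measure V).restrict (sphere 0 1) ≤
      ((volume : Measure V).toSphere).map Subtype.val := by
  set σ : Measure V := ((volume : Measure V).toSphere).map Subtype.val with hσ
  have hσ' : ∀ B : Set V, MeasurableSet B →
      σ B = (n + 1 : ℕ) * volume (Ioo (0 : ℝ) 1 • (sphere 0 1 ∩ B)) := by
    intro B hB
    rw [hσ, Measure.map_apply measurable_subtype_coe hB,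
      Measure.toSphere_apply' _ (measurable_subtype_coe hB), hn, Subtype.image_preimage_coe]
  have key : ∀ δ : ℝ, 0 < δ → δ < 1 → ∀ A : Set V, MeasurableSet A →
      ENNReal.ofReal ((1 - δ) ^ (n + 1)) * (μHE[n] : Measure V).restrict (sphere 0 1) A ≤ σ A := by
    intro δ hδ hδ1 A hA
    obtain ⟨T, hTs, hTc, hTcov⟩ := TopologicalSpace.countable_cover_nhdsWithin
      (s := sphere (0 : V) 1) (f := fun e => ball e δ)
      (fun e _ => mem_nhdsWithin_of_mem_nhds (ball_mem_nhds e hδ))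
    rcases T.eq_empty_or_nonempty with rfl | hTne
    · have : sphere (0 : V) 1 = ∅ := by simpa using hTcov
      simp [this]
    obtain ⟨e, rfl⟩ := hTc.exists_eq_range hTne
    set D := disjointed (fun i => ball (e i) δ) with hD
    have hDm : ∀ i, MeasurableSet (D i) := MeasurableSet.disjointed fun _ => measurableSet_ball
    have hDd : Pairwise (Function.onFun Disjoint fun i => A ∩ D i) := fun i j hij =>
      (disjoint_disjointed _ hij).mono inter_subset_right inter_subset_right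
    have hcov : A ∩ sphere 0 1 ⊆ ⋃ i, sphere 0 1 ∩ (A ∩ D i) := by
      intro x hx
      have : x ∈ ⋃ i, D i := by
        rw [hD, iUnion_disjointed]
        simpa using hTcov hx.2
      obtain ⟨i, hi⟩ := mem_iUnion.1 this
      exact mem_iUnion.2 ⟨i, hx.2, hx.1, hi⟩
    rw [Measure.restrict_apply hA]
    calc _ ≤ ENNReal.ofReal ((1 - δ) ^ (n + 1)) *
          ∑' i, (μHE[n] : Measure V) (sphere 0 1 ∩ (A ∩ D i)) := by
          gcongr
          exact (measure_mono hcov).trans (measure_iUnion_le _)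
      _ = ∑' i, ENNReal.ofReal ((1 - δ) ^ (n + 1)) *
          (μHE[n] : Measure V) (sphere 0 1 ∩ (A ∩ D i)) := ENNReal.tsum_mul_left.symm
      _ ≤ ∑' i, σ (A ∩ D i) := by
          refine ENNReal.tsum_le_tsum fun i => ?_
          rw [hσ' _ (hA.inter (hDm i))]
          refine cap_le hn (e := e i) (by simpa using hTs (mem_range_self i)) hδ1 ?_
          exact fun x hx => ⟨hx.1, disjointed_subset (fun i => ball (e i) δ) i hx.2.2⟩
      _ = σ (⋃ i, A ∩ D i) := (measure_iUnion hDd fun i => hA.inter (hDm i)).symm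
      _ ≤ σ A := measure_mono (iUnion_subset fun i => inter_subset_left)
  rw [Measure.le_iff]
  intro A hA
  refine ENNReal.le_of_forall_lt_one_mul_le fun α hα => ?_
  have hcont : Tendsto (fun δ : ℝ => ENNReal.ofReal ((1 - δ) ^ (n + 1))) (𝓝[>] 0) (𝓝 1) := by
    have : Continuous (fun δ : ℝ => ENNReal.ofReal ((1 - δ) ^ (n + 1))) :=
      ENNReal.continuous_ofReal.comp (by fun_prop)
    have h := (this.tendsto 0).mono_left (nhdsWithin_le_nhds (s := Ioi 0))
    simpa using h
  obtain ⟨δ, h1, h2⟩ := ((hcont.eventually (lt_mem_nhds hα)).and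
    (Ioo_mem_nhdsGT (show (0 : ℝ) < 1 by norm_num))).exists
  exact le_trans (by gcongr) (key δ h2.1 h2.2 A hA)

lemma sphere_finite {n : ℕ} (hn : finrank ℝ V = n + 1) :
    IsFiniteMeasure ((μHE[n] : Measure V).restrict (sphere 0 1)) :=
  isFiniteMeasure_of_le _ (sphere_le hn)

lemma polar_eq {n : ℕ} (hn : finrank ℝ V = n + 1) {f : V → ℝ≥0∞} (hf : Measurable f) :
    ∫⁻ h, f h = ∫⁻ r in Ioi (0 : ℝ), ENNReal.ofReal (r ^ n) *
      ∫⁻ z, f (r • z) ∂(((volume : Measure V).toSphere).map Subtype.val) := by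
  have : Nontrivial V := Module.nontrivial_of_finrank_eq_succ hn
  have hmp := (volume : Measure V).measurePreserving_homeomorphUnitSphereProd
  rw [hn, Nat.add_sub_cancel] at hmp
  have h1 : ∫⁻ h, f h = ∫⁻ x : ({0}ᶜ : Set V), f x ∂((volume : Measure V).comap Subtype.val) := by
    rw [lintegral_subtype_comap (measurableSet_singleton _).compl,
      restrict_compl_singleton]
  have h2 : ∫⁻ x : ({0}ᶜ : Set V), f x ∂((volume : Measure V).comap Subtype.val) =
      ∫⁻ p : sphere (0 : V) 1 × Ioi (0 : ℝ), f (p.2.1 • p.1.1)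
        ∂((volume : Measure V).toSphere.prod (Measure.volumeIoiPow n)) := by
    rw [← hmp.lintegral_comp (by fun_prop)]
    refine lintegral_congr fun x => ?_
    have hx : ‖(x : V)‖ ≠ 0 := norm_ne_zero_iff.2 x.2
    simp [smul_smul, mul_inv_cancel₀ hx]
  rw [h1, h2, lintegral_prod_symm _ (by fun_prop), Measure.volumeIoiPow,
    lintegral_withDensity_eq_lintegral_mul _ (by fun_prop) (by fun_prop),
    ← lintegral_subtype_comap measurableSet_Ioi]
  refine lintegral_congr fun r => ?_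
  rw [lintegral_map (by fun_prop) measurable_subtype_coe]
  rfl

lemma polar_le {n : ℕ} (hn : finrank ℝ V = n + 1) {f : V → ℝ≥0∞} (hf : Measurable f) :
    ∫⁻ r in Ioi (0 : ℝ), ENNReal.ofReal (r ^ n) *
      ∫⁻ z in sphere (0 : V) 1, f (r • z) ∂μHE[n] ≤ ∫⁻ h, f h := by
  rw [polar_eq hn hf]
  refine lintegral_mono fun r => ?_
  exact mul_le_mul_right (lintegral_mono' (sphere_le hn) le_rfl) _

lemma kappa_eq (n : ℕ) {ν e : V} (h : ‖ν‖ = ‖e‖) :
    ∫⁻ z in sphere (0 : V) 1, ‖inner ℝ z ν‖ₑ ∂μHE[n] =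
      ∫⁻ z in sphere (0 : V) 1, ‖inner ℝ z e‖ₑ ∂μHE[n] := by
  obtain ⟨T, hT⟩ := exists_rot h
  have hmp := T.toIsometryEquiv.measurePreserving_euclideanHausdorffMeasure n
  rw [← hmp.setLIntegral_comp_preimage (s := sphere 0 1) isClosed_sphere.measurableSet
    (f := fun z => ‖inner ℝ z e‖ₑ) (by fun_prop)]
  congr 1
  · congr 1
    ext z
    simp
  · ext z
    simp only [LinearIsometryEquiv.coe_toIsometryEquiv]
    rw [← hT, T.inner_map_map]

end Pool.Agent.Lib.MP_c377d9_an
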